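import Mathlib

/-!
Random subsets given by countably many events on finite sets: limits of the moments and of the
distribution.
-/

set_option autoImplicit false

namespace Pool.Agent.Y911.RR

open Filter Topology Finset

/-- The events `E t n` on the finite sets `I X`; the density of `⋂ t ∈ F, E t` is `d F`. -/
structure Sys (Ω T : Type) where
  I : ℕ → Finset Ω
  E : T → Ω → Prop
  d : Finset T → ℝ
  C : ℝ
  ne : ∀ X, 1 ≤ X → (I X).Nonempty
  C0 : 0 ≤ C
  d0 : ∀ F, 0 ≤ d F

open Classical in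
/-- the indicator of a proposition -/
noncomputable def ind (p : Prop) : ℝ := if p then 1 else 0

theorem ind_pos {p : Prop} (h : p) : ind p = 1 := if_pos h

theorem ind_neg {p : Prop} (h : ¬ p) : ind p = 0 := if_neg h

theorem ind_nonneg (p : Prop) : 0 ≤ ind p := by
  by_cases h : p
  · rw [ind_pos h]; exact zero_le_one
  · rw [ind_neg h]

theorem ind_le_one (p : Prop) : ind p ≤ 1 := by
  by_cases h : p
  · rw [ind_pos h]
  · rw [ind_neg h]; exact zero_le_one

theorem ind_congr {p q : Prop} (h : p ↔ q) : ind p = ind q := by rw [propext h]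

theorem ind_and (p q : Prop) : ind (p ∧ q) = ind p * ind q := by
  by_cases h : p <;> by_cases h' : q <;> simp [ind, h, h']

theorem ind_mul_le {a : ℝ} (ha : 0 ≤ a) (p : Prop) : ind p * a ≤ a :=
  mul_le_of_le_one_left ha (ind_le_one p)

theorem ind_mul_nonneg {a : ℝ} (ha : 0 ≤ a) (p : Prop) : 0 ≤ ind p * a :=
  mul_nonneg (ind_nonneg p) ha

theorem norm_ind_mul_le {a : ℝ} (ha : 0 ≤ a) (p : Prop) : ‖ind p * a‖ ≤ a := by
  rw [Real.norm_of_nonneg (ind_mul_nonneg ha p)]
  exact ind_mul_le ha p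

theorem sum_ind {α : Type*} (J : Finset α) (Q : α → Prop) [DecidablePred Q] :
    ∑ n ∈ J, ind (Q n) = ((J.filter Q).card : ℝ) := by
  rw [Finset.card_filter]
  push_cast
  refine Finset.sum_congr rfl fun n _ => ?_
  by_cases h : Q n
  · rw [ind_pos h, if_pos h]
  · rw [ind_neg h, if_neg h]

namespace Sys

variable {Ω T : Type} (S : Sys Ω T)

/-- the random set -/
def U (n : Ω) : Set T := {t | S.E t n}

/-- the proportion of the `n` with a property -/
noncomputable def pr (X : ℕ) (Q : Ω → Prop) : ℝ :=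
  (∑ n ∈ S.I X, ind (Q n)) / (S.I X).card

/-- the hypotheses -/
structure Good : Prop where
  lim : ∀ F : Finset T, Tendsto (fun X => S.pr X fun n => ∀ t ∈ F, S.E t n) atTop (𝓝 (S.d F))
  le : ∀ X, 1 ≤ X → ∀ F : Finset T, S.pr X (fun n => ∀ t ∈ F, S.E t n) ≤ S.C * S.d F
  fin : ∀ X, ∀ n ∈ S.I X, (S.U n).Finite

variable {S}

theorem pr_nonneg (X : ℕ) (Q : Ω → Prop) : 0 ≤ S.pr X Q :=
  div_nonneg (sum_nonneg fun _ _ => ind_nonneg _) (Nat.cast_nonneg _)

theorem ind_le_ind {p q : Prop} (h : p → q) : ind p ≤ ind q := by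
  by_cases hp : p
  · rw [ind_pos hp, ind_pos (h hp)]
  · rw [ind_neg hp]; exact ind_nonneg _

theorem pr_mono {X : ℕ} {Q R : Ω → Prop} (h : ∀ n ∈ S.I X, Q n → R n) : S.pr X Q ≤ S.pr X R :=
  div_le_div_of_nonneg_right (sum_le_sum fun n hn => ind_le_ind (h n hn)) (Nat.cast_nonneg _)

theorem pr_congr {X : ℕ} {Q R : Ω → Prop} (h : ∀ n ∈ S.I X, (Q n ↔ R n)) : S.pr X Q = S.pr X R :=
  le_antisymm (pr_mono fun n hn => (h n hn).1) (pr_mono fun n hn => (h n hn).2)

theorem pr_add {X : ℕ} {Q R : Ω → Prop} :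
    S.pr X R = S.pr X (fun n => R n ∧ Q n) + S.pr X (fun n => R n ∧ ¬ Q n) := by
  unfold pr
  rw [← add_div, ← sum_add_distrib]
  congr 1
  refine sum_congr rfl fun n _ => ?_
  rw [ind_and, ind_and, ← mul_add]
  by_cases h : Q n
  · rw [ind_pos h, ind_neg (p := ¬ Q n) (fun hc => hc h), add_zero, mul_one]
  · rw [ind_neg h, ind_pos (p := ¬ Q n) h, zero_add, mul_one]

theorem pr_or_le {X : ℕ} {Q R : Ω → Prop} :
    S.pr X (fun n => Q n ∨ R n) ≤ S.pr X Q + S.pr X R := by
  rw [pr_add (Q := Q)]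
  refine add_le_add (pr_mono fun n _ h => h.2) (pr_mono fun n _ h => ?_)
  tauto

/-- the average -/
noncomputable def av (S : Sys Ω T) (X : ℕ) (f : Ω → ℝ) : ℝ := (∑ n ∈ S.I X, f n) / (S.I X).card

theorem pr_eq_av {X : ℕ} (Q : Ω → Prop) : S.pr X Q = S.av X (fun n => ind (Q n)) := rfl

theorem av_mono {X : ℕ} {f g : Ω → ℝ} (h : ∀ n ∈ S.I X, f n ≤ g n) : S.av X f ≤ S.av X g := by
  unfold av
  exact div_le_div_of_nonneg_right (sum_le_sum h) (Nat.cast_nonneg _)

theorem av_congr {X : ℕ} {f g : Ω → ℝ} (h : ∀ n ∈ S.I X, f n = g n) : S.av X f = S.av X g := by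
  unfold av
  rw [sum_congr rfl h]

theorem av_sum {ι : Type*} {X : ℕ} (J : Finset ι) (f : ι → Ω → ℝ) :
    S.av X (fun n => ∑ i ∈ J, f i n) = ∑ i ∈ J, S.av X (f i) := by
  unfold av
  rw [sum_comm, sum_div]

theorem av_add {X : ℕ} (f g : Ω → ℝ) : S.av X (fun n => f n + g n) = S.av X f + S.av X g := by
  unfold av
  rw [sum_add_distrib, add_div]

/-- the number of tuples in the random set -/
theorem tuples (h : S.Good) {X : ℕ} {n : Ω} (hn : n ∈ S.I X) {ι : Type} [Fintype ι] :
    HasSum (fun τ : ι → T => ind (∀ i, S.E (τ i) n))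
      (((S.U n).ncard : ℝ) ^ Fintype.card ι) := by
  classical
  have hfin := h.fin X n hn
  have h1 : ∀ τ : ι → T, τ ∉ Fintype.piFinset (fun _ : ι => hfin.toFinset) →
      ind (∀ i, S.E (τ i) n) = 0 := by
    intro τ hτ
    refine ind_neg fun hall => hτ ?_
    rw [Fintype.mem_piFinset]
    intro i
    rw [Set.Finite.mem_toFinset]
    exact hall i
  have h2 : HasSum (fun τ : ι → T => ind (∀ i, S.E (τ i) n)) _ :=
    hasSum_sum_of_ne_finset_zero (s := Fintype.piFinset (fun _ : ι => hfin.toFinset)) h1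
  have h3 : ∑ τ ∈ Fintype.piFinset (fun _ : ι => hfin.toFinset), ind (∀ i, S.E (τ i) n) =
      ((S.U n).ncard : ℝ) ^ Fintype.card ι := by
    rw [Finset.sum_congr rfl (g := fun _ => (1 : ℝ))]
    · rw [Finset.sum_const, nsmul_eq_mul, mul_one, Fintype.card_piFinset, Finset.prod_const,
        Finset.card_univ, Set.ncard_eq_toFinset_card _ hfin]
      push_cast
      rfl
    · intro τ hτ
      refine ind_pos fun i => ?_
      have := (Fintype.mem_piFinset.1 hτ) i
      rw [Set.Finite.mem_toFinset] at this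
      exact this
  rw [h3] at h2
  exact h2

/-- the average number of tuples with a property -/
theorem av_tuples {X : ℕ} {ι : Type} [Fintype ι] (g : (ι → T) → Prop)
    (w : Ω → ℝ) (hw : ∀ n ∈ S.I X, HasSum (fun τ : ι → T =>
      ind (g τ) * ind (∀ i, S.E (τ i) n)) (w n)) :
    HasSum (fun τ : ι → T => ind (g τ) * S.pr X (fun n => ∀ i, S.E (τ i) n))
      (S.av X w) := by
  unfold av
  have h1 := hasSum_sum (s := S.I X) hw
  have h2 := h1.div_const ((S.I X).card : ℝ)
  refine h2.congr_fun ?_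
  intro τ
  unfold pr
  rw [← mul_sum, mul_div_assoc]

/-- a tuple condition as a set condition -/
theorem pr_tuple [DecidableEq T] {X : ℕ} {ι : Type} [Fintype ι] (τ : ι → T) :
    S.pr X (fun n => ∀ i, S.E (τ i) n) = S.pr X (fun n => ∀ t ∈ univ.image τ, S.E t n) := by
  refine pr_congr fun n _ => ?_
  simp

/-- summability of all the moments -/
def Mom (S : Sys Ω T) [DecidableEq T] : Prop :=
  ∀ k : ℕ, Summable fun τ : Fin k → T => S.d (univ.image τ)

/-- **Moments.** -/
theorem moments [DecidableEq T] (h : S.Good) (hM : S.Mom) (k : ℕ) :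
    Tendsto (fun X => S.av X fun n => ((S.U n).ncard : ℝ) ^ k) atTop
      (𝓝 (∑' τ : Fin k → T, S.d (univ.image τ))) := by
  classical
  have h1 : ∀ X, S.av X (fun n => ((S.U n).ncard : ℝ) ^ k) =
      ∑' τ : Fin k → T, S.pr X (fun n => ∀ i, S.E (τ i) n) := by
    intro X
    have h2 := av_tuples (S := S) (X := X) (ι := Fin k) (fun _ => True)
      (fun n => ((S.U n).ncard : ℝ) ^ k) (fun n hn => by
        have h3 := tuples h hn (ι := Fin k)
        rw [Fintype.card_fin] at h3
        refine h3.congr_fun fun τ => ?_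
        rw [ind_pos trivial, one_mul])
    rw [← h2.tsum_eq]
    refine tsum_congr fun τ => ?_
    rw [ind_pos trivial, one_mul]
  simp only [h1]
  refine tendsto_tsum_of_dominated_convergence (bound := fun τ => S.C * S.d (univ.image τ))
    ((hM k).mul_left _) (fun τ => ?_) ?_
  · simp only [pr_tuple]
    exact h.lim _
  · filter_upwards [eventually_ge_atTop 1] with X hX τ
    rw [Real.norm_of_nonneg (pr_nonneg _ _), pr_tuple]
    exact h.le X hX _

theorem mom_one [DecidableEq T] (hM : S.Mom) : Summable fun t : T => S.d {t} := by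
  have h1 := hM 1
  have h2 : (fun τ : Fin 1 → T => S.d (univ.image τ)) = fun τ : Fin 1 → T => S.d {τ 0} := by
    funext τ
    congr 1
  rw [h2] at h1
  exact ((Equiv.funUnique (Fin 1) T).symm.summable_iff (f := fun τ : Fin 1 → T => S.d {τ 0})).2 h1

/-- **The tail.** -/
theorem tail [DecidableEq T] (h : S.Good) (hM : S.Mom) {X : ℕ} (hX : 1 ≤ X) (g : T → Prop) :
    S.pr X (fun n => ∃ t, S.E t n ∧ g t) ≤ S.C * ∑' t : T, ind (g t) * S.d {t} := by
  classical
  have hs : Summable fun t : T => ind (g t) * S.d {t} :=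
    Summable.of_nonneg_of_le (fun t => ind_mul_nonneg (S.d0 _) _)
      (fun t => ind_mul_le (S.d0 _) _) (mom_one hM)
  -- the relevant finite set
  obtain ⟨G, hG⟩ : ∃ G : Finset T, ∀ n ∈ S.I X, ∀ t, S.E t n → t ∈ G := by
    have hf : (⋃ n ∈ S.I X, S.U n).Finite :=
      (S.I X).finite_toSet.biUnion fun n hn => h.fin X n (by simpa using hn)
    refine ⟨hf.toFinset, fun n hn t ht => ?_⟩
    rw [Set.Finite.mem_toFinset]
    exact Set.mem_biUnion hn ht
  have h1 : S.pr X (fun n => ∃ t, S.E t n ∧ g t) ≤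
      ∑ t ∈ G.filter g, S.pr X (fun n => ∀ s ∈ ({t} : Finset T), S.E s n) := by
    rw [pr_eq_av]
    have e : ∀ t ∈ G.filter g, S.pr X (fun n => ∀ s ∈ ({t} : Finset T), S.E s n) =
        S.av X (fun n => ind (S.E t n)) := by
      intro t _
      rw [pr_eq_av]
      refine av_congr fun n _ => ind_congr ?_
      simp
    rw [sum_congr rfl e, ← av_sum]
    refine av_mono fun n hn => ?_
    by_cases hc : ∃ t, S.E t n ∧ g t
    · rw [ind_pos hc]
      obtain ⟨t, ht, hgt⟩ := hc
      have h2 : t ∈ G.filter g := mem_filter.2 ⟨hG n hn t ht, hgt⟩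
      refine le_trans ?_ (single_le_sum (f := fun t => ind (S.E t n))
        (fun s _ => ind_nonneg _) h2)
      exact (ind_pos ht).ge
    · rw [ind_neg hc]
      exact sum_nonneg fun t _ => ind_nonneg _
  refine h1.trans ?_
  have h2 : ∑ t ∈ G.filter g, S.pr X (fun n => ∀ s ∈ ({t} : Finset T), S.E s n) ≤
      ∑ t ∈ G.filter g, S.C * (ind (g t) * S.d {t}) := by
    refine sum_le_sum fun t ht => ?_
    rw [ind_pos (mem_filter.1 ht).2, one_mul]
    exact h.le X hX _
  refine h2.trans ?_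
  rw [← tsum_mul_left]
  exact (hs.mul_left S.C).sum_le_tsum _ fun t _ => mul_nonneg S.C0 (ind_mul_nonneg (S.d0 _) _)

/-- the tail outside a large finite set is small -/
theorem tail_small [DecidableEq T] (hM : S.Mom) {ε : ℝ} (hε : 0 < ε) : ∃ M : Finset T,
    S.C * ∑' t : T, ind (t ∉ M) * S.d {t} < ε := by
  have h1 : Tendsto (fun M : Finset T => S.C * ∑' t : T, ind (t ∉ M) * S.d {t}) atTop
      (𝓝 (S.C * ∑' _ : T, (0 : ℝ))) := by
    refine (tendsto_tsum_of_dominated_convergence (bound := fun t : T => S.d {t})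
      (f := fun (M : Finset T) (t : T) => ind (t ∉ M) * S.d {t}) (g := fun _ : T => (0 : ℝ))
      (mom_one hM) (fun t => ?_) (Eventually.of_forall fun M t => ?_)).const_mul _
    · refine tendsto_const_nhds.congr' ?_
      filter_upwards [eventually_ge_atTop ({t} : Finset T)] with M hM
      rw [ind_neg (fun hn => hn (hM (mem_singleton_self t))), zero_mul]
    · exact norm_ind_mul_le (S.d0 _) _
  rw [tsum_zero, mul_zero] at h1
  exact (h1.eventually (gt_mem_nhds hε)).exists

/-- finitely many conditions have a density -/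
theorem lim_cyl [DecidableEq T] (h : S.Good) (N : Finset T) : ∀ F : Finset T, ∃ l : ℝ,
    Tendsto (fun X => S.pr X fun n => (∀ t ∈ F, S.E t n) ∧ ∀ t ∈ N, ¬ S.E t n) atTop (𝓝 l) := by
  induction N using Finset.induction_on with
  | empty =>
    intro F
    refine ⟨S.d F, (h.lim F).congr fun X => pr_congr fun n _ => ?_⟩
    simp
  | insert s N hs ih =>
    intro F
    obtain ⟨l1, hl1⟩ := ih F
    obtain ⟨l2, hl2⟩ := ih (insert s F)
    refine ⟨l1 - l2, (hl1.sub hl2).congr fun X => ?_⟩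
    have h1 := pr_add (S := S) (X := X)
      (R := fun n => (∀ t ∈ F, S.E t n) ∧ ∀ t ∈ N, ¬ S.E t n) (Q := fun n => S.E s n)
    have h2 : S.pr X (fun n => ((∀ t ∈ F, S.E t n) ∧ ∀ t ∈ N, ¬ S.E t n) ∧ S.E s n) =
        S.pr X (fun n => (∀ t ∈ insert s F, S.E t n) ∧ ∀ t ∈ N, ¬ S.E t n) :=
      pr_congr fun n _ => by
        rw [forall_mem_insert]
        tauto
    have h3 : S.pr X (fun n => ((∀ t ∈ F, S.E t n) ∧ ∀ t ∈ N, ¬ S.E t n) ∧ ¬ S.E s n) =
        S.pr X (fun n => (∀ t ∈ F, S.E t n) ∧ ∀ t ∈ insert s N, ¬ S.E t n) :=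
      pr_congr fun n _ => by
        rw [forall_mem_insert]
        tauto
    rw [← h3, ← h2]
    linarith

/-- **The distribution.** -/
theorem law [DecidableEq T] (h : S.Good) (hM : S.Mom) (F : Finset T) : ∃ l : ℝ,
    Tendsto (fun X => S.pr X fun n => S.U n = F) atTop (𝓝 l) := by
  classical
  refine cauchySeq_tendsto_of_complete (Metric.cauchySeq_iff'.2 fun ε hε => ?_)
  obtain ⟨M, hMt⟩ := tail_small hM (ε := ε / 4) (by positivity)
  obtain ⟨l, hl⟩ := lim_cyl h (M \ F) F
  obtain ⟨N, hN⟩ := (Metric.tendsto_atTop.1 hl) (ε / 4) (by positivity)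
  have key : ∀ X, 1 ≤ X → |S.pr X (fun n => S.U n = F) -
      S.pr X (fun n => (∀ t ∈ F, S.E t n) ∧ ∀ t ∈ M \ F, ¬ S.E t n)| < ε / 4 := by
    intro X hX
    have h1 : S.pr X (fun n => S.U n = F) ≤
        S.pr X (fun n => (∀ t ∈ F, S.E t n) ∧ ∀ t ∈ M \ F, ¬ S.E t n) := by
      refine pr_mono fun n _ hn => ⟨fun t ht => ?_, fun t ht hE => ?_⟩
      · have : t ∈ S.U n := by rw [hn]; exact ht
        exact this
      · have : t ∈ S.U n := hE
        rw [hn] at this
        exact (mem_sdiff.1 ht).2 this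
    have h2 : S.pr X (fun n => (∀ t ∈ F, S.E t n) ∧ ∀ t ∈ M \ F, ¬ S.E t n) ≤
        S.pr X (fun n => S.U n = F) + S.pr X (fun n => ∃ t, S.E t n ∧ t ∉ M) := by
      refine le_trans (pr_mono fun n _ hn => ?_) pr_or_le
      by_cases hU : S.U n = F
      · exact Or.inl hU
      · right
        have h3 : (F : Set T) ⊆ S.U n := fun t ht => hn.1 t ht
        obtain ⟨t, ht, htF⟩ := Set.exists_of_ssubset (h3.ssubset_of_ne fun hc => hU hc.symm)
        refine ⟨t, ht, fun htM => hn.2 t (mem_sdiff.2 ⟨htM, fun hc => htF hc⟩) ht⟩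
    have h3 := tail h hM hX (fun t => t ∉ M)
    rw [abs_lt]
    constructor <;> linarith
  refine ⟨max N 1, fun X hX => ?_⟩
  have hX1 : 1 ≤ X := (le_max_right _ _).trans hX
  have hXN : N ≤ X := (le_max_left _ _).trans hX
  have k1 := key X hX1
  have k2 := key (max N 1) (le_max_right _ _)
  have k3 := hN X hXN
  have k4 := hN (max N 1) (le_max_left _ _)
  rw [Real.dist_eq] at k3 k4 ⊢
  rw [abs_lt] at k1 k2 k3 k4 ⊢
  constructor <;> linarith

/-- the weight of the finite sets in a family -/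
theorem weigh (X : ℕ) (W : Finset (Finset T)) (k : ℕ) :
    ∑ F ∈ W, S.pr X (fun n => S.U n = F) * (F.card : ℝ) ^ k =
      S.av X (fun n => ∑ F ∈ W, ind (S.U n = F) * (F.card : ℝ) ^ k) := by
  rw [av_sum]
  refine sum_congr rfl fun F _ => ?_
  unfold pr av
  rw [div_mul_eq_mul_div, sum_mul]

/-- the part of the moment coming from large sets -/
theorem moment_split [DecidableEq T] (h : S.Good) (hM : S.Mom) (k : ℕ) (M : Finset T) {X : ℕ}
    (hX : 1 ≤ X) : S.av X (fun n => ((S.U n).ncard : ℝ) ^ k) ≤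
      ∑ F ∈ M.powerset, S.pr X (fun n => S.U n = F) * (F.card : ℝ) ^ k +
        S.C * ∑' σ : Fin (k + 1) → T, ind (σ 0 ∉ M) * S.d (univ.image σ) := by
  classical
  have hs : Summable fun σ : Fin (k + 1) → T => ind (σ 0 ∉ M) * S.d (univ.image σ) :=
    Summable.of_nonneg_of_le (fun t => ind_mul_nonneg (S.d0 _) _)
      (fun t => ind_mul_le (S.d0 _) _) (hM (k + 1))
  -- the tuples starting outside of `M`
  have h1 : ∀ n ∈ S.I X, HasSum (fun σ : Fin (k + 1) → T =>
      ind (σ 0 ∉ M) * ind (∀ i, S.E (σ i) n))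
      (((S.U n \ M).ncard : ℝ) * ((S.U n).ncard : ℝ) ^ k) := by
    intro n hn
    have hfin := h.fin X n hn
    have hfin' : (S.U n \ (M : Set T)).Finite := hfin.subset Set.sdiff_subset
    obtain ⟨B, hB⟩ : ∃ B : Finset (Fin (k + 1) → T), B = Fintype.piFinset
        (Fin.cons (α := fun _ => Finset T) hfin'.toFinset fun _ => hfin.toFinset) := ⟨_, rfl⟩
    have hmem : ∀ σ : Fin (k + 1) → T, σ ∈ B ↔ (σ 0 ∉ M ∧ ∀ i, S.E (σ i) n) := by
      intro σ
      rw [hB, Fintype.mem_piFinset]
      constructor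
      · intro hσ
        have h0 := hσ 0
        rw [Fin.cons_zero, Set.Finite.mem_toFinset] at h0
        refine ⟨h0.2, fun i => ?_⟩
        refine Fin.cases ?_ (fun j => ?_) i
        · exact h0.1
        · have := hσ j.succ
          rw [Fin.cons_succ, Set.Finite.mem_toFinset] at this
          exact this
      · rintro ⟨h0, hall⟩ i
        refine Fin.cases ?_ (fun j => ?_) i
        · rw [Fin.cons_zero, Set.Finite.mem_toFinset]
          exact ⟨hall 0, h0⟩
        · rw [Fin.cons_succ, Set.Finite.mem_toFinset]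
          exact hall j.succ
    have h2 : HasSum (fun σ : Fin (k + 1) → T =>
        ind (σ 0 ∉ M) * ind (∀ i, S.E (σ i) n)) _ :=
      hasSum_sum_of_ne_finset_zero (s := B) (fun σ hσ => by
        rw [hmem] at hσ
        rw [← ind_and, ind_neg hσ])
    have h3 : ∑ σ ∈ B, ind (σ 0 ∉ M) * ind (∀ i, S.E (σ i) n) =
        ((S.U n \ M).ncard : ℝ) * ((S.U n).ncard : ℝ) ^ k := by
      rw [Finset.sum_congr rfl (g := fun _ => (1 : ℝ))]
      · rw [Finset.sum_const, nsmul_eq_mul, mul_one, hB, Fintype.card_piFinset, Fin.prod_univ_succ,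
          Fin.cons_zero]
        simp only [Fin.cons_succ, Finset.prod_const, Finset.card_univ, Fintype.card_fin]
        rw [Set.ncard_eq_toFinset_card _ hfin, Set.ncard_eq_toFinset_card _ hfin']
        push_cast
        rfl
      · intro σ hσ
        rw [hmem] at hσ
        rw [← ind_and, ind_pos hσ]
    rw [h3] at h2
    exact h2
  have h4 := av_tuples (S := S) (X := X) (fun σ : Fin (k + 1) → T => σ 0 ∉ M)
    (fun n => ((S.U n \ M).ncard : ℝ) * ((S.U n).ncard : ℝ) ^ k) h1
  have h5 : S.av X (fun n => ((S.U n \ M).ncard : ℝ) * ((S.U n).ncard : ℝ) ^ k) ≤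
      S.C * ∑' σ : Fin (k + 1) → T, ind (σ 0 ∉ M) * S.d (univ.image σ) := by
    rw [← h4.tsum_eq, ← tsum_mul_left]
    refine h4.summable.tsum_le_tsum (fun σ => ?_) (hs.mul_left _)
    rw [pr_tuple, mul_left_comm]
    exact mul_le_mul_of_nonneg_left (h.le X hX _) (ind_nonneg _)
  refine le_trans ?_ (add_le_add le_rfl h5)
  rw [weigh, ← av_add]
  refine av_mono fun n hn => ?_
  have hfin := h.fin X n hn
  by_cases hsub : S.U n ⊆ M
  · have h7 : hfin.toFinset ∈ M.powerset := by
      rw [mem_powerset]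
      intro t ht
      rw [Set.Finite.mem_toFinset] at ht
      exact hsub ht
    have h8 : ((S.U n).ncard : ℝ) ^ k ≤
        ∑ F ∈ M.powerset, ind (S.U n = F) * (F.card : ℝ) ^ k := by
      refine le_trans ?_ (single_le_sum (f := fun F : Finset T =>
        ind (S.U n = F) * (F.card : ℝ) ^ k)
          (fun F _ => ind_mul_nonneg (by positivity) _) h7)
      rw [ind_pos (by rw [Set.Finite.coe_toFinset]), one_mul, Set.ncard_eq_toFinset_card _ hfin]
    have h9 : (0 : ℝ) ≤ ((S.U n \ M).ncard : ℝ) * ((S.U n).ncard : ℝ) ^ k := by positivity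
    linarith
  · have h7 : (1 : ℝ) ≤ ((S.U n \ M).ncard : ℝ) := by
      have h8 : (S.U n \ (M : Set T)).Nonempty := Set.sdiff_nonempty.2 hsub
      have h9 : 0 < (S.U n \ (M : Set T)).ncard :=
        (Set.ncard_pos (hfin.subset Set.sdiff_subset)).2 h8
      exact_mod_cast h9
    have h8 : (0 : ℝ) ≤ ((S.U n).ncard : ℝ) ^ k := by positivity
    have h9 : (0 : ℝ) ≤ ∑ F ∈ M.powerset, ind (S.U n = F) * (F.card : ℝ) ^ k :=
      sum_nonneg fun F _ => ind_mul_nonneg (by positivity) _
    nlinarith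

/-- **The distribution has all the moments.** -/
theorem law_moments [DecidableEq T] (h : S.Good) (hM : S.Mom) (δ : Finset T → ℝ)
    (hδ : ∀ F : Finset T, Tendsto (fun X => S.pr X fun n => S.U n = F) atTop (𝓝 (δ F))) (k : ℕ) :
    HasSum (fun F => δ F * (F.card : ℝ) ^ k) (∑' τ : Fin k → T, S.d (univ.image τ)) := by
  classical
  have hδ0 : ∀ F, 0 ≤ δ F := fun F => ge_of_tendsto' (hδ F) fun X => pr_nonneg _ _
  have hmom := moments h hM k
  have hup : ∀ W : Finset (Finset T), ∑ F ∈ W, δ F * (F.card : ℝ) ^ k ≤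
      ∑' τ : Fin k → T, S.d (univ.image τ) := by
    intro W
    have h1 : Tendsto (fun X => ∑ F ∈ W, S.pr X (fun n => S.U n = F) * (F.card : ℝ) ^ k) atTop
        (𝓝 (∑ F ∈ W, δ F * (F.card : ℝ) ^ k)) :=
      tendsto_finsetSum _ fun F _ => (hδ F).mul_const _
    refine le_of_tendsto_of_tendsto' h1 hmom fun X => ?_
    rw [weigh]
    refine av_mono fun n hn => ?_
    have hfin := h.fin X n hn
    have h7 : ∀ F ∈ W, F ≠ hfin.toFinset → ind (S.U n = F) * (F.card : ℝ) ^ k = 0 := by
      intro F _ hF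
      rw [ind_neg, zero_mul]
      intro hc
      apply hF
      rw [← Finset.coe_inj, Set.Finite.coe_toFinset, hc]
    by_cases hin : hfin.toFinset ∈ W
    · rw [Finset.sum_eq_single_of_mem _ hin h7,
        ind_pos (by rw [Set.Finite.coe_toFinset]), one_mul, Set.ncard_eq_toFinset_card _ hfin]
    · rw [Finset.sum_eq_zero fun F hF => h7 F hF fun hc => hin (hc ▸ hF)]
      positivity
  have hsum : Summable fun F => δ F * (F.card : ℝ) ^ k :=
    summable_of_sum_le (fun F => mul_nonneg (hδ0 F) (by positivity)) hup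
  have hle : ∑' F, δ F * (F.card : ℝ) ^ k ≤ ∑' τ : Fin k → T, S.d (univ.image τ) :=
    hsum.tsum_le_of_sum_le hup
  have hge : ∑' τ : Fin k → T, S.d (univ.image τ) ≤ ∑' F, δ F * (F.card : ℝ) ^ k := by
    have h1 : ∀ M : Finset T, ∑' τ : Fin k → T, S.d (univ.image τ) ≤
        ∑' F, δ F * (F.card : ℝ) ^ k +
          S.C * ∑' σ : Fin (k + 1) → T, ind (σ 0 ∉ M) * S.d (univ.image σ) := by
      intro M
      have h2 : Tendsto (fun X => ∑ F ∈ M.powerset, S.pr X (fun n => S.U n = F) *
          (F.card : ℝ) ^ k + S.C * ∑' σ : Fin (k + 1) → T,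
            ind (σ 0 ∉ M) * S.d (univ.image σ)) atTop
          (𝓝 (∑ F ∈ M.powerset, δ F * (F.card : ℝ) ^ k + S.C * ∑' σ : Fin (k + 1) → T,
            ind (σ 0 ∉ M) * S.d (univ.image σ))) :=
        (tendsto_finsetSum _ fun F _ => (hδ F).mul_const _).add_const _
      have h3 := le_of_tendsto_of_tendsto hmom h2 (by
        filter_upwards [eventually_ge_atTop 1] with X hX
        exact moment_split h hM k M hX)
      have h4 := hsum.sum_le_tsum M.powerset fun F _ => mul_nonneg (hδ0 F) (by positivity)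
      linarith
    have h5 : Tendsto (fun M : Finset T => ∑' F, δ F * (F.card : ℝ) ^ k +
        S.C * ∑' σ : Fin (k + 1) → T, ind (σ 0 ∉ M) * S.d (univ.image σ)) atTop
        (𝓝 (∑' F, δ F * (F.card : ℝ) ^ k + S.C * ∑' _ : Fin (k + 1) → T, (0 : ℝ))) := by
      refine tendsto_const_nhds.add ((tendsto_tsum_of_dominated_convergence
        (bound := fun σ : Fin (k + 1) → T => S.d (univ.image σ))
        (f := fun (M : Finset T) (σ : Fin (k + 1) → T) =>
          ind (σ 0 ∉ M) * S.d (univ.image σ))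
        (g := fun _ : Fin (k + 1) → T => (0 : ℝ)) (hM (k + 1))
        (fun σ => ?_) (Eventually.of_forall fun M σ => ?_)).const_mul _)
      · refine tendsto_const_nhds.congr' ?_
        filter_upwards [eventually_ge_atTop ({σ 0} : Finset T)] with M hM
        rw [ind_neg (fun hn => hn (hM (mem_singleton_self _))), zero_mul]
      · exact norm_ind_mul_le (S.d0 _) _
    rw [tsum_zero, mul_zero, add_zero] at h5
    exact ge_of_tendsto' h5 h1
  rw [le_antisymm hge hle]
  exact hsum.hasSum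

end Sys

end Pool.Agent.Y911.RR
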