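import Mathlib
import Pool.Agent.TH876.Sums
import Pool.Agent.Y911.RR.Prob

/-!
The ideals of norm at most `X` divisible by given primes.
-/

set_option autoImplicit false

namespace Pool.Agent.Y911.RR

open NumberField IsDedekindDomain Finset Pool.Agent.H691R3 Pool.Agent.TH876.Loc Filter Topology
open scoped nonZeroDivisors

variable (K : Type) [Field K] [NumberField K]

theorem fin_ids (X : ℕ) : {n : Ideal (𝓞 K) | n ≠ ⊥ ∧ Ideal.absNorm n ≤ X}.Finite :=
  (Ideal.finite_setOfPred_absNorm_le X).subset fun _ h => h.2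

/-- the nonzero ideals of norm at most `X` -/
noncomputable def ids (X : ℕ) : Finset (Ideal (𝓞 K)) := (fin_ids K X).toFinset

variable {K}

theorem mem_ids {X : ℕ} {n : Ideal (𝓞 K)} : n ∈ ids K X ↔ n ≠ ⊥ ∧ Ideal.absNorm n ≤ X := by
  unfold ids
  rw [Set.Finite.mem_toFinset]
  rfl

variable (K)

theorem card_ids_eq (X : ℕ) : (ids K X).card =
    Nat.card {I : (Ideal (𝓞 K))⁰ // (Ideal.absNorm (I : Ideal (𝓞 K)) : ℝ) ≤ (X : ℝ)} := by
  have e : {I : (Ideal (𝓞 K))⁰ // (Ideal.absNorm (I : Ideal (𝓞 K)) : ℝ) ≤ (X : ℝ)} ≃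
      {n // n ∈ ids K X} :=
    { toFun := fun I => ⟨I.1.1, mem_ids.2 ⟨nonZeroDivisors.ne_zero I.1.2, by exact_mod_cast I.2⟩⟩
      invFun := fun n => ⟨⟨n.1, mem_nonZeroDivisors_of_ne_zero (mem_ids.1 n.2).1⟩, by
        exact_mod_cast (mem_ids.1 n.2).2⟩
      left_inv := fun I => rfl
      right_inv := fun n => rfl }
  rw [Nat.card_congr e, Nat.card_eq_fintype_card, Fintype.card_coe]

/-- the density of the ideals -/
theorem ids_lim : ∃ κ : ℝ, 0 < κ ∧
    Tendsto (fun X : ℕ => ((ids K X).card : ℝ) / X) atTop (𝓝 κ) := by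
  have h1 := (NumberField.Ideal.tendsto_norm_le_div_atTop₀ K).comp tendsto_natCast_atTop_atTop
  refine ⟨_, ?_, h1.congr fun X => ?_⟩
  · have h2 := NumberField.Units.regulator_pos K
    have h3 : 0 < (classNumber K : ℝ) := by exact_mod_cast Nat.pos_of_ne_zero (classNumber_ne_zero K)
    have h4 : 0 < (NumberField.Units.torsionOrder K : ℝ) := by
      exact_mod_cast NumberField.Units.torsionOrder_pos K
    have h5 : 0 < |(discr K : ℝ)| := abs_pos.2 (by exact_mod_cast discr_ne_zero K)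
    have h6 := Real.pi_pos
    positivity
  · simp only [Function.comp_apply]
    rw [card_ids_eq]

variable {K}

/-- the product of the norms -/
noncomputable def Nm (S : Finset (Pr K)) : ℕ := ∏ v ∈ S, Ideal.absNorm v.asIdeal

theorem Nm_cast (S : Finset (Pr K)) : (Nm S : ℝ) = nn S := by
  unfold Nm nn Nv
  push_cast
  rfl

theorem Nm_pos (S : Finset (Pr K)) : 0 < Nm S := by
  have := nn_pos S
  rw [← Nm_cast] at this
  exact_mod_cast this

theorem dvd_iff (S : Finset (Pr K)) (n : Ideal (𝓞 K)) :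
    (∀ v ∈ S, n ≤ v.asIdeal) ↔ (∏ v ∈ S, v.asIdeal) ∣ n := by
  classical
  constructor
  · intro h
    have h1 := Finset.prod_primes_dvd (s := S.image fun v => v.asIdeal) n
      (fun a ha => by
        obtain ⟨v, _, rfl⟩ := mem_image.1 ha
        exact v.prime)
      (fun a ha => by
        obtain ⟨v, hv, rfl⟩ := mem_image.1 ha
        exact Ideal.dvd_iff_le.2 (h v hv))
    rw [Finset.prod_image (fun a _ b _ hab => HeightOneSpectrum.ext hab)] at h1
    exact h1
  · intro h v hv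
    exact Ideal.dvd_iff_le.1 ((Finset.dvd_prod_of_mem _ hv).trans h)

theorem card_div (X : ℕ) (S : Finset (Pr K)) :
    ∑ n ∈ ids K X, ind (∀ v ∈ S, n ≤ v.asIdeal) = ((ids K (X / Nm S)).card : ℝ) := by
  classical
  rw [sum_ind]
  congr 1
  symm
  have hm : Ideal.absNorm (∏ v ∈ S, v.asIdeal) = Nm S := by
    unfold Nm
    rw [map_prod]
  have hm0 : (∏ v ∈ S, v.asIdeal) ≠ ⊥ := by
    intro h0
    rw [h0, Ideal.absNorm_bot] at hm
    exact (Nm_pos S).ne hm
  refine Finset.card_bij (fun I _ => (∏ v ∈ S, v.asIdeal) * I) ?_ ?_ ?_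
  · intro I hI
    rw [mem_ids] at hI
    rw [mem_filter, mem_ids, dvd_iff]
    refine ⟨⟨mul_ne_zero hm0 hI.1, ?_⟩, dvd_mul_right _ _⟩
    rw [map_mul, hm, mul_comm]
    exact (Nat.le_div_iff_mul_le (Nm_pos S)).1 hI.2
  · intro I _ J _ h
    exact mul_left_cancel₀ hm0 h
  · intro n hn
    rw [mem_filter, mem_ids, dvd_iff] at hn
    obtain ⟨J, rfl⟩ := hn.2
    refine ⟨J, ?_, rfl⟩
    rw [mem_ids]
    refine ⟨fun h0 => hn.1.1 ?_, ?_⟩
    · rw [h0]
      exact mul_zero _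
    · rw [Nat.le_div_iff_mul_le (Nm_pos S), mul_comm, ← hm, ← map_mul]
      exact hn.1.2

theorem one_mem_ids {X : ℕ} (hX : 1 ≤ X) : (1 : Ideal (𝓞 K)) ∈ ids K X := by
  rw [mem_ids]
  refine ⟨one_ne_zero, ?_⟩
  rw [map_one]
  exact hX

variable (K)

theorem ids_bounds : ∃ a A : ℝ, 0 < a ∧ 0 < A ∧ (∀ X : ℕ, ((ids K X).card : ℝ) ≤ A * X) ∧
    ∀ X : ℕ, a * X ≤ (ids K X).card := by
  obtain ⟨κ, hκ, hlim⟩ := ids_lim K
  obtain ⟨N, hN⟩ := (Metric.tendsto_atTop.1 hlim) (κ / 2) (by positivity)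
  have hc : ∀ X : ℕ, 1 ≤ X → 1 ≤ ((ids K X).card : ℝ) := fun X hX => by
    have := Finset.card_pos.2 ⟨_, one_mem_ids (K := K) hX⟩
    exact_mod_cast this
  have h0 : (ids K 0).card = 0 := by
    rw [Finset.card_eq_zero]
    refine Finset.eq_empty_of_forall_notMem fun n hn => ?_
    rw [mem_ids] at hn
    exact hn.1 (Ideal.absNorm_eq_zero_iff.1 (Nat.le_zero.1 hn.2))
  have hmono : ∀ X Y : ℕ, X ≤ Y → (ids K X).card ≤ (ids K Y).card := fun X Y h =>
    Finset.card_le_card fun n hn => by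
      rw [mem_ids] at hn ⊢
      exact ⟨hn.1, hn.2.trans h⟩
  have key : ∀ X : ℕ, N ≤ X → 1 ≤ X →
      κ / 2 * X ≤ (ids K X).card ∧ ((ids K X).card : ℝ) ≤ 3 / 2 * κ * X := by
    intro X hX h1
    have h2 := hN X hX
    rw [Real.dist_eq, abs_lt] at h2
    have hX0 : (0 : ℝ) < X := by exact_mod_cast h1
    have h3 : ((ids K X).card : ℝ) / X * X = (ids K X).card := div_mul_cancel₀ _ hX0.ne'
    constructor <;> nlinarith
  refine ⟨min (κ / 2) (1 / (N + 1)), 3 / 2 * κ + (ids K N).card, by positivity, by positivity,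
    fun X => ?_, fun X => ?_⟩
  · rcases Nat.eq_zero_or_pos X with rfl | hX
    · rw [h0]; simp
    have hX1 : (1 : ℝ) ≤ X := by exact_mod_cast hX
    rcases le_or_gt N X with h | h
    · have := (key X h hX).2
      have h2 : (0 : ℝ) ≤ (ids K N).card := Nat.cast_nonneg _
      nlinarith
    · have h2 : ((ids K X).card : ℝ) ≤ (ids K N).card := by exact_mod_cast hmono X N h.le
      have h3 : (0 : ℝ) ≤ (ids K N).card := Nat.cast_nonneg _
      nlinarith
  · rcases Nat.eq_zero_or_pos X with rfl | hX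
    · simp
    have hX1 : (0 : ℝ) < X := by exact_mod_cast hX
    rcases le_or_gt N X with h | h
    · refine le_trans ?_ (key X h hX).1
      exact mul_le_mul_of_nonneg_right (min_le_left _ _) hX1.le
    · refine le_trans ?_ (hc X hX)
      have h2 : (X : ℝ) ≤ N + 1 := by
        have : (X : ℝ) ≤ N := by exact_mod_cast h.le
        linarith
      calc min (κ / 2) (1 / ((N : ℝ) + 1)) * X ≤ 1 / ((N : ℝ) + 1) * X :=
            mul_le_mul_of_nonneg_right (min_le_right _ _) hX1.le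
        _ ≤ 1 / ((N : ℝ) + 1) * (N + 1) := mul_le_mul_of_nonneg_left h2 (by positivity)
        _ = 1 := by field_simp

theorem ids_ratio (N : ℕ) (hN : 0 < N) :
    Tendsto (fun X : ℕ => ((ids K (X / N)).card : ℝ) / (ids K X).card) atTop (𝓝 (1 / N)) := by
  obtain ⟨κ, hκ, hlim⟩ := ids_lim K
  have h1 : Tendsto (fun X : ℕ => X / N) atTop atTop := Nat.tendsto_div_const_atTop hN.ne'
  have h2 : Tendsto (fun X : ℕ => ((ids K (X / N)).card : ℝ) / ((X / N : ℕ) : ℝ)) atTop (𝓝 κ) :=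
    hlim.comp h1
  have hN0 : (0 : ℝ) < N := by exact_mod_cast hN
  have h3 : Tendsto (fun X : ℕ => (((X / N : ℕ) : ℝ)) / X) atTop (𝓝 (1 / N)) := by
    have h4 : Tendsto (fun X : ℕ => (⌊(1 / (N : ℝ)) * (X : ℝ)⌋₊ : ℝ) / (X : ℝ)) atTop
        (𝓝 (1 / N)) :=
      (tendsto_nat_floor_mul_div_atTop (R := ℝ) (a := 1 / (N : ℝ)) (by positivity)).comp
        tendsto_natCast_atTop_atTop
    refine h4.congr fun X => ?_
    congr 2
    rw [one_div, inv_mul_eq_div]
    exact Nat.floor_div_eq_div X N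
  have h5 := (h2.mul h3).div hlim hκ.ne'
  rw [mul_div_cancel_left₀ _ hκ.ne'] at h5
  refine h5.congr' ?_
  filter_upwards [eventually_ge_atTop N, eventually_ge_atTop 1] with X hX hX1
  have g1 : (0 : ℝ) < X := by exact_mod_cast hX1
  have g2 : (0 : ℝ) < ((X / N : ℕ) : ℝ) := by exact_mod_cast Nat.div_pos hX hN
  have g3 : (0 : ℝ) < (ids K X).card := by
    exact_mod_cast Finset.card_pos.2 ⟨_, one_mem_ids (K := K) hX1⟩
  simp only [Pi.div_apply]
  field_simp

end Pool.Agent.Y911.RR
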