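import Mathlib
import Pool.Agent.TH876.KR.Sets

/-!
Sums over tuples of objects with supports, of a negative power of the norm of the union of the
supports.
-/

set_option autoImplicit false

namespace Pool.Agent.Y911.RR

open NumberField IsDedekindDomain Finset Pool.Agent.H691R3 Pool.Agent.TH876.Loc

variable {K : Type} [Field K] [NumberField K]

variable (K) in
theorem sets_sum {η : ℝ} (hη : 0 < η) : ∃ D : ℝ, 0 < D ∧ ∀ U : Finset (Finset (Pr K)),
    ∑ s ∈ U, (nn s) ^ (-(1 + η)) ≤ D := by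
  classical
  refine ⟨Real.exp ((Module.finrank ℚ K : ℝ) * ∑' n : ℕ, ((n : ℝ) ^ (1 + η))⁻¹),
    Real.exp_pos _, fun U => ?_⟩
  have h1 := sum_sets_le (fun v : Pr K => (Nv v) ^ (-(1 + η)))
    (fun v => Real.rpow_nonneg (Nv_pos v).le _)
    (U.biUnion id) U (fun s hs => Finset.subset_biUnion_of_mem id hs)
  have h2 : ∀ s ∈ U, (nn s) ^ (-(1 + η)) = ∏ v ∈ s, (Nv v) ^ (-(1 + η)) := by
    intro s _
    unfold nn
    rw [Real.finset_prod_rpow _ _ (fun v _ => (Nv_pos v).le)]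
  rw [sum_congr rfl h2]
  exact h1.trans (Real.exp_le_exp.2 (Pool.Agent.TH876.KR.sum_rpow_le η hη _))

/-- few objects with a given support, and the support is large -/
structure Hyp {T : Type} (sp : T → Finset (Pr K)) : Prop where
  mult : ∀ η : ℝ, 0 < η → ∃ C : ℝ, 0 < C ∧ ∀ (S : Finset (Pr K)) (F : Finset T),
    (∀ t ∈ F, sp t ⊆ S) → (F.card : ℝ) ≤ C * (nn S) ^ η
  dec : ∃ θ C : ℝ, 0 ≤ θ ∧ θ < 1 ∧ 0 < C ∧ ∀ F : Finset T, ∑ t ∈ F, (nn (sp t)) ^ (-θ) ≤ C

/-- one more object -/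
theorem step_one [DecidableEq (Pr K)] {T : Type} {sp : T → Finset (Pr K)} (h : Hyp sp) {s' : ℝ}
    (h0 : 0 ≤ s') (h1 : s' < 1) : ∃ s C : ℝ, 0 ≤ s ∧ s < 1 ∧ 0 < C ∧
      ∀ (R : Finset (Pr K)) (F : Finset T),
        ∑ t ∈ F, (nn (R ∪ sp t)) ^ (-s) ≤ C * (nn R) ^ (-s') := by
  classical
  obtain ⟨θ, Cθ, hθ0, hθ1, hCθ, hdec⟩ := h.dec
  have g1 : 0 < 1 - θ := by linarith
  obtain ⟨y, hy⟩ : ∃ y : ℝ, y = 2 / (1 - θ) := ⟨_, rfl⟩
  have hy0 : 0 < y := by rw [hy]; positivity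
  have hyθ : y * ((1 - θ) / 2) = 1 := by rw [hy]; field_simp
  obtain ⟨η, hη⟩ : ∃ η : ℝ, η = min ((1 - s') / (2 + 3 * y)) ((1 - θ) / 2) := ⟨_, rfl⟩
  have g2 : 0 < 1 - s' := by linarith
  have hη0 : 0 < η := by rw [hη]; positivity
  have hη1 : (2 + 3 * y) * η ≤ 1 - s' := by
    have : η ≤ (1 - s') / (2 + 3 * y) := by rw [hη]; exact min_le_left _ _
    rw [le_div_iff₀ (by positivity)] at this
    linarith
  have hη2 : η ≤ (1 - θ) / 2 := by rw [hη]; exact min_le_right _ _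
  obtain ⟨Cη, hCη, hmult⟩ := h.mult η hη0
  obtain ⟨D, hD, hsets⟩ := sets_sum K hη0
  refine ⟨1 - η, Cη * D + Cθ, by linarith, by linarith, by positivity, ?_⟩
  intro R F
  have hR := nn_pos R
  have hR1 := one_le_nn R
  have hV : ∀ t : T, nn (R ∪ sp t) = nn R * nn (sp t \ R) := by
    intro t
    rw [← Finset.union_sdiff_self_eq_union, nn_union Finset.disjoint_sdiff]
  -- the objects with a large support
  have hB : ∀ t ∈ F, ¬ nn (sp t \ R) ≤ (nn R) ^ y →
      (nn (R ∪ sp t)) ^ (-(1 - η)) ≤ (nn R) ^ (-s') * (nn (sp t)) ^ (-θ) := by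
    intro t _ ht
    rw [not_le] at ht
    have hW := nn_pos (sp t \ R)
    have hW1 := one_le_nn (sp t \ R)
    have hVp := nn_pos (R ∪ sp t)
    have e1 : (nn R : ℝ) ≤ (nn (sp t \ R)) ^ ((1 - θ) / 2) := by
      calc nn R = ((nn R) ^ y) ^ ((1 - θ) / 2) := by
            rw [← Real.rpow_mul hR.le, hyθ, Real.rpow_one]
        _ ≤ _ := Real.rpow_le_rpow (by positivity) ht.le (by positivity)
    have e2 : (nn (R ∪ sp t)) ^ (-θ) ≤ (nn (sp t)) ^ (-θ) := by
      rw [Real.rpow_neg hVp.le, Real.rpow_neg (nn_pos _).le]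
      exact inv_anti₀ (Real.rpow_pos_of_pos (nn_pos _) _)
        (Real.rpow_le_rpow (nn_pos _).le (nn_mono Finset.subset_union_right) hθ0)
    refine le_trans ?_ (mul_le_mul_of_nonneg_left e2 (by positivity))
    rw [hV, Real.mul_rpow hR.le hW.le, Real.mul_rpow hR.le hW.le, ← mul_assoc,
      ← Real.rpow_add hR]
    have e3 : (nn R) ^ (-(1 - η)) ≤ (nn R) ^ (-s' + -θ) * (nn (sp t \ R)) ^ (1 - η - θ) := by
      have e4 : (nn R) ^ (-(1 - η)) = (nn R) ^ (-s' + -θ) * (nn R) ^ (s' + θ - (1 - η)) := by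
        rw [← Real.rpow_add hR]
        ring_nf
      rw [e4]
      refine mul_le_mul_of_nonneg_left ?_ (by positivity)
      calc (nn R) ^ (s' + θ - (1 - η)) ≤ (nn R) ^ (1 : ℝ) :=
            Real.rpow_le_rpow_of_exponent_le hR1 (by linarith)
        _ = nn R := Real.rpow_one _
        _ ≤ _ := e1
        _ ≤ _ := Real.rpow_le_rpow_of_exponent_le hW1 (by linarith)
    calc (nn R) ^ (-(1 - η)) * (nn (sp t \ R)) ^ (-(1 - η)) ≤
        (nn R) ^ (-s' + -θ) * (nn (sp t \ R)) ^ (1 - η - θ) * (nn (sp t \ R)) ^ (-(1 - η)) :=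
          mul_le_mul_of_nonneg_right e3 (by positivity)
      _ = _ := by
          rw [mul_assoc, ← Real.rpow_add hW]
          ring_nf
  -- the objects with a small support
  have hA : ∑ t ∈ F.filter (fun t => nn (sp t \ R) ≤ (nn R) ^ y), (nn (R ∪ sp t)) ^ (-(1 - η)) ≤
      Cη * D * (nn R) ^ (-s') := by
    obtain ⟨G, hG⟩ : ∃ G, G = F.filter (fun t => nn (sp t \ R) ≤ (nn R) ^ y) := ⟨_, rfl⟩
    rw [← hG]
    have hGm : ∀ t ∈ G, nn (sp t \ R) ≤ (nn R) ^ y := fun t ht => by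
      rw [hG] at ht
      exact (mem_filter.1 ht).2
    have e1 : ∑ t ∈ G, (nn (R ∪ sp t)) ^ (-(1 - η)) =
        ∑ W ∈ G.image (fun t => sp t \ R), ((G.filter fun t => sp t \ R = W).card : ℝ) *
          (nn R * nn W) ^ (-(1 - η)) := by
      have := Finset.sum_comp (s := G) (fun W : Finset (Pr K) => (nn R * nn W) ^ (-(1 - η)))
        (fun t => sp t \ R)
      simp only [nsmul_eq_mul] at this
      rw [← this]
      exact sum_congr rfl fun t _ => by rw [hV]
    rw [e1]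
    have e2 : ∀ W ∈ G.image (fun t => sp t \ R), ((G.filter fun t => sp t \ R = W).card : ℝ) *
          (nn R * nn W) ^ (-(1 - η)) ≤ Cη * (nn R) ^ (-s') * (nn W) ^ (-(1 + η)) := by
      intro W hW
      obtain ⟨t, ht, rfl⟩ := mem_image.1 hW
      have hWp := nn_pos (sp t \ R)
      have hW1 := one_le_nn (sp t \ R)
      have k1 := hmult (R ∪ sp t) (G.filter fun u => sp u \ R = sp t \ R) (by
        intro u hu
        have hu' := (mem_filter.1 hu).2
        intro v hv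
        by_cases hvR : v ∈ R
        · exact mem_union_left _ hvR
        · have : v ∈ sp u \ R := mem_sdiff.2 ⟨hv, hvR⟩
          rw [hu'] at this
          exact mem_union_right _ (mem_sdiff.1 this).1)
      rw [hV] at k1
      have k2 : (nn R * nn (sp t \ R)) ^ η * (nn R * nn (sp t \ R)) ^ (-(1 - η)) =
          (nn R) ^ (-1 + 2 * η) * (nn (sp t \ R)) ^ (-1 + 2 * η) := by
        rw [← Real.rpow_add (mul_pos hR hWp), Real.mul_rpow hR.le hWp.le]
        ring_nf
      have k3 : (nn (sp t \ R)) ^ (-1 + 2 * η) ≤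
          ((nn R) ^ y) ^ (3 * η) * (nn (sp t \ R)) ^ (-(1 + η)) := by
        have k4 : (nn (sp t \ R)) ^ (-1 + 2 * η) =
            (nn (sp t \ R)) ^ (3 * η) * (nn (sp t \ R)) ^ (-(1 + η)) := by
          rw [← Real.rpow_add hWp]
          ring_nf
        rw [k4]
        exact mul_le_mul_of_nonneg_right
          (Real.rpow_le_rpow hWp.le (hGm t ht) (by positivity)) (by positivity)
      have k5 : (nn R) ^ (-1 + 2 * η) * ((nn R) ^ y) ^ (3 * η) ≤ (nn R) ^ (-s') := by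
        rw [← Real.rpow_mul hR.le, ← Real.rpow_add hR]
        refine Real.rpow_le_rpow_of_exponent_le hR1 ?_
        nlinarith
      calc _ ≤ Cη * (nn R * nn (sp t \ R)) ^ η * (nn R * nn (sp t \ R)) ^ (-(1 - η)) :=
            mul_le_mul_of_nonneg_right k1 (by positivity)
        _ = Cη * ((nn R) ^ (-1 + 2 * η) * (nn (sp t \ R)) ^ (-1 + 2 * η)) := by
            rw [mul_assoc, k2]
        _ ≤ Cη * ((nn R) ^ (-1 + 2 * η) *
              (((nn R) ^ y) ^ (3 * η) * (nn (sp t \ R)) ^ (-(1 + η)))) :=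
            mul_le_mul_of_nonneg_left (mul_le_mul_of_nonneg_left k3 (by positivity)) hCη.le
        _ = Cη * ((nn R) ^ (-1 + 2 * η) * ((nn R) ^ y) ^ (3 * η)) *
              (nn (sp t \ R)) ^ (-(1 + η)) := by ring
        _ ≤ _ := mul_le_mul_of_nonneg_right (mul_le_mul_of_nonneg_left k5 hCη.le)
              (by positivity)
    refine (sum_le_sum e2).trans ?_
    rw [← mul_sum]
    calc _ ≤ Cη * (nn R) ^ (-s') * D := mul_le_mul_of_nonneg_left (hsets _) (by positivity)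
      _ = _ := by ring
  have hB' : ∑ t ∈ F.filter (fun t => ¬ nn (sp t \ R) ≤ (nn R) ^ y),
      (nn (R ∪ sp t)) ^ (-(1 - η)) ≤ Cθ * (nn R) ^ (-s') := by
    have e1 : ∑ t ∈ F.filter (fun t => ¬ nn (sp t \ R) ≤ (nn R) ^ y),
        (nn (R ∪ sp t)) ^ (-(1 - η)) ≤
        ∑ t ∈ F.filter (fun t => ¬ nn (sp t \ R) ≤ (nn R) ^ y),
          (nn R) ^ (-s') * (nn (sp t)) ^ (-θ) :=
      sum_le_sum fun t ht => hB t (mem_filter.1 ht).1 (mem_filter.1 ht).2
    refine e1.trans ?_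
    rw [← mul_sum, mul_comm]
    exact mul_le_mul_of_nonneg_right (hdec _) (by positivity)
  rw [← sum_filter_add_sum_filter_not F (fun t => nn (sp t \ R) ≤ (nn R) ^ y)]
  calc _ ≤ Cη * D * (nn R) ^ (-s') + Cθ * (nn R) ^ (-s') := add_le_add hA hB'
    _ = _ := by ring

/-- the union of the supports -/
def un {T : Type} [DecidableEq (Pr K)] (sp : T → Finset (Pr K)) {ι : Type} [Fintype ι]
    (τ : ι → T) : Finset (Pr K) := univ.biUnion fun i => sp (τ i)

/-- **All the moments.** -/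
theorem tuples_sum [DecidableEq (Pr K)] {T : Type} {sp : T → Finset (Pr K)} (h : Hyp sp) (k : ℕ) :
    ∃ s C : ℝ, 0 ≤ s ∧ s < 1 ∧ 0 < C ∧ ∀ F : Finset (Fin k → T),
      ∑ τ ∈ F, (nn (un sp τ)) ^ (-s) ≤ C := by
  classical
  induction k with
  | zero =>
    refine ⟨0, 1, le_rfl, zero_lt_one, one_pos, fun F => ?_⟩
    simp only [neg_zero, Real.rpow_zero, sum_const, nsmul_eq_mul, mul_one]
    have : F.card ≤ 1 := Finset.card_le_one.2 fun a _ b _ => Subsingleton.elim a b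
    exact_mod_cast this
  | succ k ih =>
    obtain ⟨s', C', h0, h1, hC', hk⟩ := ih
    obtain ⟨s, C, hs0, hs1, hC, hstep⟩ := step_one h h0 h1
    refine ⟨s, C * C', hs0, hs1, by positivity, fun F => ?_⟩
    have e0 : ∀ σ : Fin (k + 1) → T, un sp σ = un sp (Fin.tail σ) ∪ sp (σ 0) := by
      intro σ
      ext v
      simp only [un, mem_biUnion, mem_univ, true_and, mem_union, Fin.tail]
      rw [Fin.exists_fin_succ]
      tauto
    obtain ⟨H, hH⟩ : ∃ H : Finset (T × (Fin k → T)),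
        H = (F.image fun σ => σ 0) ×ˢ (F.image fun σ => Fin.tail σ) := ⟨_, rfl⟩
    have e1 : ∑ σ ∈ F, (nn (un sp σ)) ^ (-s) ≤
        ∑ p ∈ H, (nn (un sp p.2 ∪ sp p.1)) ^ (-s) := by
      have k1 : ∑ σ ∈ F, (nn (un sp σ)) ^ (-s) =
          ∑ p ∈ F.image (fun σ => ((σ 0, Fin.tail σ) : T × (Fin k → T))),
            (nn (un sp p.2 ∪ sp p.1)) ^ (-s) := by
        rw [Finset.sum_image]
        · exact sum_congr rfl fun σ _ => by rw [e0]
        · intro a _ b _ hab
          have k2 : a 0 = b 0 := congrArg Prod.fst hab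
          have k3 : Fin.tail a = Fin.tail b := congrArg Prod.snd hab
          rw [← Fin.cons_self_tail a, ← Fin.cons_self_tail b, k2, k3]
      rw [k1]
      refine Finset.sum_le_sum_of_subset_of_nonneg ?_ fun p _ _ =>
        Real.rpow_nonneg (nn_pos _).le _
      intro p hp
      obtain ⟨σ, hσ, rfl⟩ := mem_image.1 hp
      rw [hH]
      exact mem_product.2 ⟨mem_image_of_mem _ hσ, mem_image_of_mem _ hσ⟩
    refine e1.trans ?_
    rw [hH, sum_product_right]
    have e2 : ∀ τ ∈ F.image (fun σ => Fin.tail σ),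
        ∑ t ∈ F.image (fun σ => σ 0), (nn (un sp τ ∪ sp t)) ^ (-s) ≤
          C * (nn (un sp τ)) ^ (-s') := fun τ _ => hstep _ _
    refine (sum_le_sum e2).trans ?_
    rw [← mul_sum]
    exact mul_le_mul_of_nonneg_left (hk _) hC.le

end Pool.Agent.Y911.RR
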