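import Mathlib
import Pool.Agent.Y911.RR.Prob
import Pool.Agent.Y911.RR.Sum
import Pool.Agent.Y911.RR.Ideals

/-!
The random set of the objects whose support divides a random ideal.
-/

set_option autoImplicit false

namespace Pool.Agent.Y911.RR

open NumberField IsDedekindDomain Finset Pool.Agent.H691R3 Pool.Agent.TH876.Loc Filter Topology

variable {K : Type} [Field K] [NumberField K]

/-- the constant -/
noncomputable def idC (K : Type) [Field K] [NumberField K] : ℝ :=
  (ids_bounds K).choose_spec.choose / (ids_bounds K).choose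

theorem idC_pos : 0 < idC K :=
  div_pos (ids_bounds K).choose_spec.choose_spec.2.1 (ids_bounds K).choose_spec.choose_spec.1

theorem idC_spec (X N : ℕ) (hX : 1 ≤ X) (hN : 0 < N) :
    ((ids K (X / N)).card : ℝ) / (ids K X).card ≤ idC K * (1 / N) := by
  obtain ⟨ha, hA, h1, h2⟩ := (ids_bounds K).choose_spec.choose_spec
  have hX0 : (0 : ℝ) < X := by exact_mod_cast hX
  have hN0 : (0 : ℝ) < N := by exact_mod_cast hN
  have g3 : (0 : ℝ) < (ids K X).card := by
    exact_mod_cast Finset.card_pos.2 ⟨_, one_mem_ids (K := K) hX⟩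
  rw [div_le_iff₀ g3]
  have e1 : ((X / N : ℕ) : ℝ) ≤ X / N := Nat.cast_div_le
  calc ((ids K (X / N)).card : ℝ) ≤ (ids_bounds K).choose_spec.choose * ((X / N : ℕ) : ℝ) := h1 _
    _ ≤ (ids_bounds K).choose_spec.choose * (X / N) := mul_le_mul_of_nonneg_left e1 hA.le
    _ = idC K * (1 / N) * ((ids_bounds K).choose * X) := by
        unfold idC
        field_simp
    _ ≤ idC K * (1 / N) * (ids K X).card :=
        mul_le_mul_of_nonneg_left (h2 X) (mul_nonneg idC_pos.le (by positivity))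

/-- the random set of the objects whose support divides a random ideal -/
noncomputable def sys [DecidableEq (Pr K)] {T : Type} (sp : T → Finset (Pr K)) :
    Sys (Ideal (𝓞 K)) T where
  I := ids K
  E t n := ∀ v ∈ sp t, n ≤ v.asIdeal
  d F := 1 / nn (F.biUnion sp)
  C := idC K
  ne X hX := ⟨_, one_mem_ids hX⟩
  C0 := idC_pos.le
  d0 F := by
    have := nn_pos (F.biUnion sp)
    positivity

theorem pr_sys [DecidableEq (Pr K)] {T : Type} (sp : T → Finset (Pr K)) (X : ℕ) (F : Finset T) :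
    (sys sp).pr X (fun n => ∀ t ∈ F, (sys sp).E t n) =
      ((ids K (X / Nm (F.biUnion sp))).card : ℝ) / (ids K X).card := by
  unfold Sys.pr
  rw [← card_div]
  show (∑ n ∈ ids K X, ind (∀ t ∈ F, ∀ v ∈ sp t, n ≤ v.asIdeal)) / ((ids K X).card : ℝ) = _
  congr 1
  refine sum_congr rfl fun n _ => ind_congr ?_
  simp only [mem_biUnion]
  constructor
  · rintro h v ⟨t, ht, hv⟩
    exact h t ht v hv
  · intro h t ht v hv
    exact h v ⟨t, ht, hv⟩

/-- finitely many objects with a given support -/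
def FinSp {T : Type} (sp : T → Finset (Pr K)) : Prop := ∀ S : Finset (Pr K), {t | sp t ⊆ S}.Finite

theorem Hyp.finSp {T : Type} {sp : T → Finset (Pr K)} (h : Hyp sp) : FinSp sp := by
  intro S
  obtain ⟨C, hC, hb⟩ := h.mult 1 one_pos
  by_contra hinf
  obtain ⟨F, hF, hcard⟩ := Set.Infinite.exists_subset_card_eq hinf (⌊C * nn S⌋₊ + 1)
  have h1 := hb S F (fun t ht => hF ht)
  rw [hcard, Real.rpow_one] at h1
  push_cast at h1
  exact absurd h1 (not_le.2 (Nat.lt_floor_add_one _))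

/-- finitely many primes divide a nonzero ideal -/
theorem primes_fin {n : Ideal (𝓞 K)} (hn : n ≠ ⊥) : {v : Pr K | n ≤ v.asIdeal}.Finite := by
  have h1 := Ideal.finite_factors hn
  refine h1.subset fun v hv => ?_
  exact Ideal.dvd_iff_le.2 hv

theorem sys_fin [DecidableEq (Pr K)] {T : Type} {sp : T → Finset (Pr K)} (h : FinSp sp)
    {n : Ideal (𝓞 K)} (hn : n ≠ ⊥) : {t | ∀ v ∈ sp t, n ≤ v.asIdeal}.Finite := by
  refine (h (primes_fin hn).toFinset).subset fun t ht v hv => ?_
  rw [Set.Finite.mem_toFinset]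
  exact ht v hv

theorem sys_good [DecidableEq (Pr K)] {T : Type} {sp : T → Finset (Pr K)} (h : FinSp sp) :
    (sys sp).Good where
  lim F := by
    simp only [pr_sys]
    have := ids_ratio K (Nm (F.biUnion sp)) (Nm_pos _)
    rw [Nm_cast] at this
    exact this
  le X hX F := by
    rw [pr_sys]
    have := idC_spec (K := K) X (Nm (F.biUnion sp)) hX (Nm_pos _)
    rw [Nm_cast] at this
    exact this
  fin X n hn := sys_fin h (mem_ids.1 hn).1

theorem d_image [DecidableEq (Pr K)] {T : Type} [DecidableEq T] (sp : T → Finset (Pr K)) {k : ℕ}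
    (τ : Fin k → T) : (sys sp).d (univ.image τ) = 1 / nn (un sp τ) := by
  show 1 / nn ((univ.image τ).biUnion sp) = _
  rw [Finset.image_biUnion]
  rfl

/-- the sums of the negative powers -/
def Pow [DecidableEq (Pr K)] {T : Type} (sp : T → Finset (Pr K)) : Prop :=
  ∀ k : ℕ, ∃ s C : ℝ, 0 ≤ s ∧ s < 1 ∧ 0 < C ∧ ∀ F : Finset (Fin k → T),
      ∑ τ ∈ F, (nn (un sp τ)) ^ (-s) ≤ C

theorem inv_le_rpow {x s : ℝ} (hx : 1 ≤ x) (hs : s ≤ 1) : 1 / x ≤ x ^ (-s) := by
  have hx0 : 0 < x := by linarith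
  rw [one_div, ← Real.rpow_neg_one]
  exact Real.rpow_le_rpow_of_exponent_le hx (by linarith)

theorem sys_mom [DecidableEq (Pr K)] {T : Type} [DecidableEq T] {sp : T → Finset (Pr K)}
    (h : Pow sp) : (sys sp).Mom := by
  intro k
  obtain ⟨s, C, _, hs, _, hb⟩ := h k
  simp only [d_image]
  refine summable_of_sum_le (fun τ => ?_) (fun F => ?_) (c := C)
  · have := nn_pos (un sp τ)
    positivity
  · exact (sum_le_sum fun τ _ => inv_le_rpow (one_le_nn _) hs.le).trans (hb F)

/-- **The objects with a large support are rare.** -/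
theorem sys_tail [DecidableEq (Pr K)] {T : Type} {sp : T → Finset (Pr K)} (hf : FinSp sp)
    (hP : Pow sp) {s C : ℝ} (hs : s < 1)
    (hb : ∀ F : Finset T, ∑ t ∈ F, (nn (sp t)) ^ (-s) ≤ C) (X : ℕ) (hX : 1 ≤ X) (Z : ℝ)
    (hZ0 : 0 < Z) : (sys sp).pr X (fun n => ∃ t, (∀ v ∈ sp t, n ≤ v.asIdeal) ∧ Z < nn (sp t)) ≤
      idC K * C * Z ^ (s - 1) := by
  classical
  have h1 := Sys.tail (sys_good hf) (sys_mom hP) hX (fun t => Z < nn (sp t))
  refine h1.trans ?_
  rw [mul_assoc]
  refine mul_le_mul_of_nonneg_left ?_ idC_pos.le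
  refine Real.tsum_le_of_sum_le (fun t => ind_mul_nonneg ((sys sp).d0 _) _) fun F => ?_
  have h2 : ∀ t ∈ F, ind (Z < nn (sp t)) * (sys sp).d {t} ≤ (nn (sp t)) ^ (-s) * Z ^ (s - 1) := by
    intro t _
    have hd : (sys sp).d {t} = 1 / nn (sp t) := by
      show 1 / nn (({t} : Finset T).biUnion sp) = _
      rw [singleton_biUnion]
    rw [hd]
    have hp := nn_pos (sp t)
    by_cases h : Z < nn (sp t)
    · rw [ind_pos h, one_mul]
      have e1 : 1 / nn (sp t) = (nn (sp t)) ^ (-s) * (nn (sp t)) ^ (s - 1) := by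
        rw [← Real.rpow_add hp, one_div, ← Real.rpow_neg_one]
        ring_nf
      rw [e1]
      refine mul_le_mul_of_nonneg_left ?_ (by positivity)
      exact Real.rpow_le_rpow_of_nonpos hZ0 h.le (by linarith)
    · rw [ind_neg h, zero_mul]
      positivity
  refine (sum_le_sum h2).trans ?_
  rw [← sum_mul]
  exact mul_le_mul_of_nonneg_right (hb F) (by positivity)

/-- objects lying over tuples of objects, finitely many over each tuple -/
structure Over [DecidableEq (Pr K)] {T T' : Type} (sp : T → Finset (Pr K)) (m B : ℕ)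
    (Bd : Finset (Pr K)) (c : T' → Fin m → T) (sp' : T' → Finset (Pr K)) : Prop where
  few : ∀ y : Fin m → T, ∃ G : Finset T', G.card ≤ B ∧ ∀ t, c t = y → t ∈ G
  sub : ∀ t, un sp (c t) ⊆ sp' t ∪ Bd

theorem Over.finSp [DecidableEq (Pr K)] {T T' : Type} {sp : T → Finset (Pr K)} {m B : ℕ}
    {Bd : Finset (Pr K)} {c : T' → Fin m → T} {sp' : T' → Finset (Pr K)}
    (h : Over sp m B Bd c sp') (hf : FinSp sp) : FinSp sp' := by
  intro S
  have h1 : {τ : Fin m → T | ∀ i, τ i ∈ {t | sp t ⊆ S ∪ Bd}}.Finite :=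
    Set.Finite.pi' fun _ => hf (S ∪ Bd)
  refine (h1.preimage' (f := c) fun y _ => ?_).subset fun t ht i => ?_
  · obtain ⟨G, _, hG⟩ := h.few y
    exact G.finite_toSet.subset fun t ht => hG t ht
  · refine Finset.Subset.trans ?_ ((h.sub t).trans (Finset.union_subset_union_left ht))
    exact Finset.subset_biUnion_of_mem (fun i => sp (c t i)) (mem_univ i)

theorem Over.pow [DecidableEq (Pr K)] {T T' : Type} {sp : T → Finset (Pr K)} {m B : ℕ}
    {Bd : Finset (Pr K)} {c : T' → Fin m → T} {sp' : T' → Finset (Pr K)}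
    (h : Over sp m B Bd c sp') (hp : Pow sp) : Pow sp' := by
  classical
  intro k
  obtain ⟨s, C, h0, h1, hC, hb⟩ := hp (k * m)
  refine ⟨s, (B ^ k + 1) * ((nn Bd) ^ s * C), h0, h1,
    by have := nn_pos Bd; positivity, fun F => ?_⟩
  obtain ⟨φ, hφ⟩ : ∃ φ : (Fin k → T') → (Fin (k * m) → T),
      φ = fun τ i => c (τ (finProdFinEquiv.symm i).1) (finProdFinEquiv.symm i).2 := ⟨_, rfl⟩
  have hfib : ∀ σ : Fin (k * m) → T, (F.filter fun τ => φ τ = σ).card ≤ B ^ k := by
    intro σ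
    choose G hG1 hG2 using fun i : Fin k => h.few fun j => σ (finProdFinEquiv (i, j))
    have k1 : (F.filter fun τ => φ τ = σ) ⊆ Fintype.piFinset G := by
      intro τ hτ
      have hτ' := (mem_filter.1 hτ).2
      rw [Fintype.mem_piFinset]
      intro i
      refine hG2 i _ (funext fun j => ?_)
      have := congrFun hτ' (finProdFinEquiv (i, j))
      rw [hφ] at this
      simp only [Equiv.symm_apply_apply] at this
      exact this
    refine (card_le_card k1).trans ?_
    rw [Fintype.card_piFinset]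
    calc ∏ i, (G i).card ≤ ∏ _i : Fin k, B := prod_le_prod' fun i _ => hG1 i
      _ = B ^ k := by rw [prod_const, card_univ, Fintype.card_fin]
  have hsub : ∀ τ, un sp (φ τ) ⊆ un sp' τ ∪ Bd := by
    intro τ v hv
    unfold un at hv ⊢
    rw [mem_biUnion] at hv
    obtain ⟨i, _, hi⟩ := hv
    have h3 : v ∈ sp' (τ (finProdFinEquiv.symm i).1) ∪ Bd := by
      refine h.sub _ ?_
      unfold un
      rw [mem_biUnion]
      refine ⟨(finProdFinEquiv.symm i).2, mem_univ _, ?_⟩
      rw [hφ] at hi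
      exact hi
    rcases mem_union.1 h3 with h4 | h4
    · exact mem_union_left _ (mem_biUnion.2 ⟨_, mem_univ _, h4⟩)
    · exact mem_union_right _ h4
  have hnn : ∀ τ, nn (un sp (φ τ)) ≤ nn (un sp' τ) * nn Bd := by
    intro τ
    refine (nn_mono (hsub τ)).trans ?_
    rw [← Finset.union_sdiff_self_eq_union, nn_union Finset.disjoint_sdiff]
    exact mul_le_mul_of_nonneg_left (nn_mono Finset.sdiff_subset) (nn_pos _).le
  have e1 : ∑ τ ∈ F, (nn (un sp' τ)) ^ (-s) ≤ ∑ τ ∈ F, (nn Bd) ^ s * (nn (un sp (φ τ))) ^ (-s) := by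
    refine sum_le_sum fun τ _ => ?_
    have p1 := nn_pos (un sp' τ)
    have p2 := nn_pos (un sp (φ τ))
    have p3 := nn_pos Bd
    rw [Real.rpow_neg p1.le, Real.rpow_neg p2.le, ← div_eq_mul_inv, le_div_iff₀ (by positivity),
      inv_mul_le_iff₀ (by positivity), ← Real.mul_rpow p1.le p3.le]
    exact Real.rpow_le_rpow p2.le (hnn τ) h0
  have e2 : ∑ τ ∈ F, (nn (un sp (φ τ))) ^ (-s) =
      ∑ σ ∈ F.image φ, ((F.filter fun τ => φ τ = σ).card : ℝ) * (nn (un sp σ)) ^ (-s) := by
    have := Finset.sum_comp (s := F) (fun σ => (nn (un sp σ)) ^ (-s)) φ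
    simp only [nsmul_eq_mul] at this
    exact this
  have e3 : ∑ σ ∈ F.image φ, ((F.filter fun τ => φ τ = σ).card : ℝ) * (nn (un sp σ)) ^ (-s) ≤
      (B ^ k + 1) * C := by
    calc _ ≤ ∑ σ ∈ F.image φ, ((B : ℝ) ^ k + 1) * (nn (un sp σ)) ^ (-s) := by
          refine sum_le_sum fun σ _ => ?_
          refine mul_le_mul_of_nonneg_right ?_ (Real.rpow_nonneg (nn_pos _).le _)
          have : ((F.filter fun τ => φ τ = σ).card : ℝ) ≤ (B : ℝ) ^ k := by
            exact_mod_cast hfib σ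
          linarith
      _ ≤ _ := by
          rw [← mul_sum]
          exact mul_le_mul_of_nonneg_left (hb _) (by positivity)
  rw [← mul_sum, e2] at e1
  calc _ ≤ _ := e1
    _ ≤ (nn Bd) ^ s * ((B ^ k + 1) * C) :=
        mul_le_mul_of_nonneg_left e3 (Real.rpow_nonneg (nn_pos _).le _)
    _ = _ := by ring

theorem change_sum [DecidableEq (Pr K)] {T : Type} {sp sp' : T → Finset (Pr K)} {θ C : ℝ}
    (h0 : 0 ≤ θ) (Bd : Finset (Pr K)) (hs : ∀ t, sp t ⊆ sp' t ∪ Bd)
    (hb : ∀ F : Finset T, ∑ t ∈ F, (nn (sp t)) ^ (-θ) ≤ C) (F : Finset T) :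
    ∑ t ∈ F, (nn (sp' t)) ^ (-θ) ≤ (nn Bd) ^ θ * C := by
  have e1 : ∑ t ∈ F, (nn (sp' t)) ^ (-θ) ≤ ∑ t ∈ F, (nn Bd) ^ θ * (nn (sp t)) ^ (-θ) := by
    refine sum_le_sum fun t _ => ?_
    have p1 := nn_pos (sp' t)
    have p2 := nn_pos (sp t)
    have p3 := nn_pos Bd
    rw [Real.rpow_neg p1.le, Real.rpow_neg p2.le, ← div_eq_mul_inv, le_div_iff₀ (by positivity),
      inv_mul_le_iff₀ (by positivity), ← Real.mul_rpow p1.le p3.le]
    refine Real.rpow_le_rpow p2.le ((nn_mono (hs t)).trans ?_) h0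
    rw [← Finset.union_sdiff_self_eq_union, nn_union Finset.disjoint_sdiff]
    exact mul_le_mul_of_nonneg_left (nn_mono Finset.sdiff_subset) (nn_pos _).le
  rw [← mul_sum] at e1
  exact e1.trans (mul_le_mul_of_nonneg_left (hb F) (Real.rpow_nonneg (nn_pos _).le _))

/-- changing the supports at finitely many primes -/
theorem Hyp.change [DecidableEq (Pr K)] {T : Type} {sp sp' : T → Finset (Pr K)} (h : Hyp sp)
    (Bd : Finset (Pr K)) (hs : ∀ t, sp t ⊆ sp' t ∪ Bd) : Hyp sp' where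
  mult η hη := by
    obtain ⟨C, hC, hb⟩ := h.mult η hη
    refine ⟨C * (nn Bd) ^ η, by have := nn_pos Bd; positivity, fun S F hF => ?_⟩
    have h1 := hb (S ∪ Bd) F fun t ht => (hs t).trans (Finset.union_subset_union_left (hF t ht))
    refine h1.trans ?_
    rw [mul_assoc]
    refine mul_le_mul_of_nonneg_left ?_ hC.le
    rw [mul_comm, ← Real.mul_rpow (nn_pos _).le (nn_pos _).le]
    refine Real.rpow_le_rpow (nn_pos _).le ?_ hη.le
    rw [← Finset.union_sdiff_self_eq_union, nn_union Finset.disjoint_sdiff]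
    exact mul_le_mul_of_nonneg_left (nn_mono Finset.sdiff_subset) (nn_pos _).le
  dec := by
    obtain ⟨θ, C, h0, h1, hC, hb⟩ := h.dec
    exact ⟨θ, (nn Bd) ^ θ * C, h0, h1, by have := nn_pos Bd; positivity, change_sum h0 Bd hs hb⟩

end Pool.Agent.Y911.RR
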