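import Mathlib
import Pool.Agent.Y728.LineQ
import Pool.Agent.TH876.Light
import Pool.Agent.Y911.RR.Rand

/-!
The points of the projective line off `q` points: supports.
-/

set_option autoImplicit false

namespace Pool.Agent.Y911.RR

open NumberField IsDedekindDomain Finset Pool.Agent.H691R3 Pool.Agent.TH876.Loc
open Pool.Agent.TH876.KR (form counting bad_finite tt tri Pt_tt tri_ne tt_inj localHeight m2
  localHeight_pos_iff localHeight_nonneg Good good_finite m2_of_good GoodPr tri_good sp_tt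
  finite_primes log_nn)

variable {K : Type} [Field K] [NumberField K]

/-- the same reduction -/
def Meet (v : HeightOneSpectrum (𝓞 K)) (P Q : Projectivization K (Fin 2 → K)) : Prop :=
  FinitePlace.mk v (P.rep 0 * Q.rep 1 - P.rep 1 * Q.rep 0) <
    max (FinitePlace.mk v (P.rep 0)) (FinitePlace.mk v (P.rep 1)) *
      max (FinitePlace.mk v (Q.rep 0)) (FinitePlace.mk v (Q.rep 1))

theorem meet_iff (v : Pr K) (P Q : Projectivization K (Fin 2 → K)) :
    Meet v P Q ↔ fv v (form P.rep Q.rep) < m2 v P.rep * m2 v Q.rep := Iff.rfl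

theorem fv_form_comm (v : Pr K) (a b : Fin 2 → K) : fv v (form a b) = fv v (form b a) := by
  have : form a b = -form b a := by unfold form; ring
  rw [this, (fv v).map_neg]

theorem meet_comm (v : Pr K) (P Q : Projectivization K (Fin 2 → K)) :
    Meet v P Q ↔ Meet v Q P := by
  rw [meet_iff, meet_iff, fv_form_comm, mul_comm]

omit [NumberField K] in
theorem form_rep_ne {P Q : Projectivization K (Fin 2 → K)} (h : P ≠ Q) :
    form P.rep Q.rep ≠ 0 := by
  intro h0
  apply h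
  have e : P = Projectivization.mk K P.rep P.rep_nonzero := P.mk_rep.symm
  have e' : Q = Projectivization.mk K Q.rep Q.rep_nonzero := Q.mk_rep.symm
  rw [e, e', Projectivization.mk_eq_mk_iff']
  unfold form at h0
  have hQ := Q.rep_nonzero
  by_cases hq : Q.rep 0 = 0
  · have hq1 : Q.rep 1 ≠ 0 := by
      intro h1
      apply hQ
      funext j
      fin_cases j
      · exact hq
      · exact h1
    refine ⟨P.rep 1 / Q.rep 1, ?_⟩
    rw [hq, mul_zero, sub_zero] at h0
    have hp0 : P.rep 0 = 0 := (mul_eq_zero.1 h0).resolve_right hq1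
    funext j
    fin_cases j
    · show P.rep 1 / Q.rep 1 * Q.rep 0 = P.rep 0
      rw [hq, hp0, mul_zero]
    · show P.rep 1 / Q.rep 1 * Q.rep 1 = P.rep 1
      field_simp
  · refine ⟨P.rep 0 / Q.rep 0, ?_⟩
    funext j
    fin_cases j
    · show P.rep 0 / Q.rep 0 * Q.rep 0 = P.rep 0
      field_simp
    · show P.rep 0 / Q.rep 0 * Q.rep 1 = P.rep 1
      field_simp
      linear_combination h0

theorem meet_finite {P Q : Projectivization K (Fin 2 → K)} (h : P ≠ Q) :
    {v : Pr K | Meet v P Q}.Finite := by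
  have h0 := form_rep_ne h
  have h1 : {v : Pr K | fv v (form P.rep Q.rep) ≠ 1}.Finite := fv_support_finite h0
  refine (((good_finite P.rep).union (good_finite Q.rep)).union h1).subset ?_
  intro v hv
  by_contra hcon
  rw [Set.mem_union, Set.mem_union, not_or, not_or] at hcon
  obtain ⟨⟨k1, k2⟩, k3⟩ := hcon
  have g1 : Good v P.rep := by
    by_contra h'
    exact k1 h'
  have g2 : Good v Q.rep := by
    by_contra h'
    exact k2 h'
  have g3 : fv v (form P.rep Q.rep) = 1 := by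
    by_contra h'
    exact k3 h'
  have g4 := (meet_iff v P Q).1 hv
  rw [g3, m2_of_good P.rep_nonzero g1, m2_of_good Q.rep_nonzero g2, mul_one] at g4
  exact lt_irrefl _ g4

variable {q : ℕ}

/-- the points off `A` -/
def Off (A : Fin q → Projectivization K (Fin 2 → K)) : Type :=
  {P : Projectivization K (Fin 2 → K) // ∀ l, P ≠ A l}

theorem spA_finite (A : Fin q → Projectivization K (Fin 2 → K)) (P : Off A) :
    {v : Pr K | ∃ l, Meet v P.1 (A l)}.Finite := by
  have h1 : (⋃ l, {v : Pr K | Meet v P.1 (A l)}).Finite :=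
    Set.finite_iUnion fun l => meet_finite (P.2 l)
  refine h1.subset ?_
  rintro v ⟨l, hl⟩
  exact Set.mem_iUnion.2 ⟨l, hl⟩

/-- the primes where a point meets `A` -/
noncomputable def spA (A : Fin q → Projectivization K (Fin 2 → K)) (P : Off A) : Finset (Pr K) :=
  (spA_finite A P).toFinset

theorem mem_spA {A : Fin q → Projectivization K (Fin 2 → K)} {P : Off A} {v : Pr K} :
    v ∈ spA A P ↔ ∃ l, Meet v P.1 (A l) := by
  unfold spA
  rw [Set.Finite.mem_toFinset]
  rfl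

theorem counting_eq (A : Fin q → Projectivization K (Fin 2 → K)) (P : Off A) :
    counting (∅ : Set (Pr K)) (fun l => (A l).rep) P.1.rep = Real.log (nn (spA A P)) := by
  unfold counting
  rw [log_nn, ← finsum_mem_coe_finset]
  refine finsum_mem_congr ?_ fun v _ => rfl
  ext v
  rw [mem_coe, mem_spA]
  constructor
  · rintro ⟨_, hv⟩
    obtain ⟨l, _, hl⟩ := Finset.exists_lt_of_sum_lt (s := univ)
      (f := fun _ : Fin q => (0 : ℝ)) (g := fun i => localHeight v (A i).rep P.1.rep)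
      (by simpa using hv)
    refine ⟨l, ?_⟩
    rw [meet_comm]
    exact (localHeight_pos_iff v (form_rep_ne (P.2 l).symm)).1 hl
  · rintro ⟨l, hl⟩
    refine ⟨Set.notMem_empty _, ?_⟩
    rw [meet_comm] at hl
    exact Finset.sum_pos' (fun i _ => localHeight_nonneg v (form_rep_ne (P.2 i).symm))
      ⟨l, Finset.mem_univ _, (localHeight_pos_iff v (form_rep_ne (P.2 l).symm)).2 hl⟩

/-- the number of points with a support of bounded norm -/
theorem off_count (hq : 3 ≤ q) (A : Fin q → Projectivization K (Fin 2 → K))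
    (hA : Function.Injective A) (ε : ℝ) (hε : 0 < ε) :
    ∃ C : ℝ, 0 < C ∧ ∀ X : ℝ, 1 ≤ X → ∀ F : Finset (Off A), (∀ P ∈ F, nn (spA A P) ≤ X) →
      (F.card : ℝ) ≤ C * X ^ (2 / (q : ℝ) + ε) := by
  classical
  obtain ⟨C, hC⟩ := Pool.Agent.Y728.line_final K ∅ Set.finite_empty q hq (fun l => (A l).rep)
    (fun i j hij => form_rep_ne fun h => hij (hA h)) ε hε
  refine ⟨max C 1, by positivity, fun X hX F hF => ?_⟩
  obtain ⟨hfin, hb⟩ := hC X hX
  have hX0 : 0 < X := by linarith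
  have h1 : ((F.image fun P => P.1 : Finset (Projectivization K (Fin 2 → K))) : Set _) ⊆
      Pool.Agent.Y728.PtsQ ∅ (fun l => (A l).rep) X := by
    intro p hp
    obtain ⟨P, hP, rfl⟩ := mem_image.1 (mem_coe.1 hp)
    refine ⟨P.1.rep, P.1.rep_nonzero, P.1.mk_rep.symm, fun i => form_rep_ne (P.2 i).symm, ?_⟩
    rw [counting_eq, Real.exp_log (nn_pos _)]
    exact hF P hP
  have h2 := Set.ncard_le_ncard h1 hfin
  have hinj : Function.Injective fun P : Off A => P.1 := fun a b hab => Subtype.ext hab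
  rw [Set.ncard_coe_finset, card_image_of_injective F hinj] at h2
  calc (F.card : ℝ) ≤ (Pool.Agent.Y728.PtsQ ∅ (fun l => (A l).rep) X).ncard := by exact_mod_cast h2
    _ ≤ C * X ^ (2 / (q : ℝ) + ε) := hb
    _ ≤ max C 1 * X ^ (2 / (q : ℝ) + ε) :=
        mul_le_mul_of_nonneg_right (le_max_left _ _) (by positivity)

/-- dyadic sums -/
theorem dyadic_sum {T : Type} (f : T → ℝ) (hf : ∀ t, 1 ≤ f t) {α θ C : ℝ} (hα : 0 ≤ α)
    (hαθ : α < θ) (hC : 0 < C)
    (h : ∀ X : ℝ, 1 ≤ X → ∀ F : Finset T, (∀ t ∈ F, f t ≤ X) → (F.card : ℝ) ≤ C * X ^ α) :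
    ∃ D : ℝ, 0 < D ∧ ∀ F : Finset T, ∑ t ∈ F, (f t) ^ (-θ) ≤ D := by
  classical
  have hr0 : (0 : ℝ) ≤ 2 ^ (α - θ) := by positivity
  have hr1 : (2 : ℝ) ^ (α - θ) < 1 := Real.rpow_lt_one_of_one_lt_of_neg one_lt_two (by linarith)
  have hs := summable_geometric_of_lt_one hr0 hr1
  have h1r : 0 < 1 - (2 : ℝ) ^ (α - θ) := by linarith
  refine ⟨C * 2 ^ α * (1 - 2 ^ (α - θ))⁻¹, by positivity, fun F => ?_⟩
  obtain ⟨j, hj⟩ : ∃ j : T → ℕ, j = fun t => Nat.log 2 ⌊f t⌋₊ := ⟨_, rfl⟩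
  have hlow : ∀ t, (2 : ℝ) ^ (j t) ≤ f t := by
    intro t
    have h0 : 0 < ⌊f t⌋₊ := Nat.floor_pos.2 (hf t)
    have h1 : 2 ^ (Nat.log 2 ⌊f t⌋₊) ≤ ⌊f t⌋₊ := Nat.pow_log_le_self 2 h0.ne'
    rw [hj]
    calc (2 : ℝ) ^ (Nat.log 2 ⌊f t⌋₊) ≤ (⌊f t⌋₊ : ℝ) := by exact_mod_cast h1
      _ ≤ f t := Nat.floor_le (by linarith [hf t])
  have hup : ∀ t, f t ≤ (2 : ℝ) ^ (j t + 1) := by
    intro t
    have h1 : ⌊f t⌋₊ < 2 ^ (Nat.log 2 ⌊f t⌋₊ + 1) := Nat.lt_pow_succ_log_self one_lt_two _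
    have h2 : ⌊f t⌋₊ + 1 ≤ 2 ^ (Nat.log 2 ⌊f t⌋₊ + 1) := h1
    rw [hj]
    calc f t ≤ (⌊f t⌋₊ : ℝ) + 1 := (Nat.lt_floor_add_one _).le
      _ ≤ (2 : ℝ) ^ (Nat.log 2 ⌊f t⌋₊ + 1) := by exact_mod_cast h2
  have e1 : ∑ t ∈ F, (f t) ^ (-θ) ≤ ∑ t ∈ F, ((2 : ℝ) ^ (j t)) ^ (-θ) :=
    sum_le_sum fun t _ => Real.rpow_le_rpow_of_nonpos (by positivity) (hlow t) (by linarith)
  have e2 : ∑ t ∈ F, ((2 : ℝ) ^ (j t)) ^ (-θ) =
      ∑ i ∈ F.image j, ((F.filter fun t => j t = i).card : ℝ) * ((2 : ℝ) ^ i) ^ (-θ) := by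
    have := Finset.sum_comp (s := F) (fun i : ℕ => ((2 : ℝ) ^ i) ^ (-θ)) j
    simp only [nsmul_eq_mul] at this
    exact this
  have e3 : ∀ i ∈ F.image j, ((F.filter fun t => j t = i).card : ℝ) * ((2 : ℝ) ^ i) ^ (-θ) ≤
      C * 2 ^ α * (2 ^ (α - θ)) ^ i := by
    intro i _
    have k1 := h ((2 : ℝ) ^ (i + 1)) (one_le_pow₀ one_le_two) (F.filter fun t => j t = i)
      (fun t ht => by
        rw [← (mem_filter.1 ht).2]
        exact hup t)
    calc _ ≤ C * ((2 : ℝ) ^ (i + 1)) ^ α * ((2 : ℝ) ^ i) ^ (-θ) :=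
          mul_le_mul_of_nonneg_right k1 (by positivity)
      _ = C * 2 ^ α * (2 ^ (α - θ)) ^ i := by
          rw [pow_succ, Real.mul_rpow (by positivity) (by positivity), ← Real.rpow_natCast 2 i,
            ← Real.rpow_natCast (2 ^ (α - θ)) i, ← Real.rpow_mul (by norm_num),
            ← Real.rpow_mul (by norm_num), ← Real.rpow_mul (by norm_num)]
          have : (2 : ℝ) ^ ((α - θ) * (i : ℝ)) = 2 ^ ((i : ℝ) * α) * 2 ^ ((i : ℝ) * -θ) := by
            rw [← Real.rpow_add (by norm_num)]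
            ring_nf
          rw [this]
          ring
  calc _ ≤ _ := e1
    _ = _ := e2
    _ ≤ ∑ i ∈ F.image j, C * 2 ^ α * (2 ^ (α - θ)) ^ i := sum_le_sum e3
    _ = C * 2 ^ α * ∑ i ∈ F.image j, (2 ^ (α - θ)) ^ i := by rw [mul_sum]
    _ ≤ C * 2 ^ α * (1 - 2 ^ (α - θ))⁻¹ := by
        refine mul_le_mul_of_nonneg_left ?_ (by positivity)
        rw [← tsum_geometric_of_lt_one hr0 hr1]
        exact hs.sum_le_tsum _ fun i _ => by positivity

theorem off_dec (hq : 3 ≤ q) (A : Fin q → Projectivization K (Fin 2 → K))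
    (hA : Function.Injective A) (θ : ℝ) (hθ : 2 / (q : ℝ) < θ) :
    ∃ D : ℝ, 0 < D ∧ ∀ F : Finset (Off A), ∑ P ∈ F, (nn (spA A P)) ^ (-θ) ≤ D := by
  obtain ⟨C, hC, hb⟩ := off_count hq A hA ((θ - 2 / q) / 2) (by linarith)
  have hq0 : (0 : ℝ) < q := by exact_mod_cast (by omega : 0 < q)
  exact dyadic_sum (fun P : Off A => nn (spA A P)) (fun P => one_le_nn _)
    (α := 2 / (q : ℝ) + (θ - 2 / q) / 2) (add_nonneg (by positivity) (by linarith)) (by linarith) hC hb

/-- powers of a constant against the norm -/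
theorem pow_card_le (K : Type) [Field K] [NumberField K] (B : ℝ) (hB : 1 ≤ B) (η : ℝ)
    (hη : 0 < η) : ∃ C : ℝ, 0 < C ∧ ∀ S : Finset (Pr K), B ^ S.card ≤ C * (nn S) ^ η := by
  classical
  have hB0 : 0 < B := by linarith
  obtain ⟨M, hM⟩ : ∃ M : Finset (Pr K), ∀ v, v ∉ M → B ≤ (Nv v) ^ η := by
    refine ⟨(finite_primes K (B ^ (1 / η))).toFinset, fun v hv => ?_⟩
    rw [Set.Finite.mem_toFinset] at hv
    have h1 : B ^ (1 / η) < Nv v := by
      by_contra h
      exact hv (not_lt.1 h)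
    calc B = (B ^ (1 / η)) ^ η := by
          rw [← Real.rpow_mul hB0.le, one_div, inv_mul_cancel₀ hη.ne', Real.rpow_one]
      _ ≤ (Nv v) ^ η := Real.rpow_le_rpow (by positivity) h1.le hη.le
  refine ⟨B ^ M.card, by positivity, fun S => ?_⟩
  have h1 : S.card ≤ M.card + (S \ M).card := by
    have := Finset.card_le_card (Finset.subset_union_left : S ⊆ S ∪ M)
    have h2 : (S ∪ M).card = M.card + (S \ M).card := by
      rw [Finset.union_comm, ← Finset.union_sdiff_self_eq_union,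
        Finset.card_union_of_disjoint Finset.disjoint_sdiff]
    omega
  calc B ^ S.card ≤ B ^ (M.card + (S \ M).card) := pow_le_pow_right₀ hB h1
    _ = B ^ M.card * B ^ (S \ M).card := pow_add _ _ _
    _ ≤ B ^ M.card * (nn S) ^ η := by
        refine mul_le_mul_of_nonneg_left ?_ (by positivity)
        calc B ^ (S \ M).card = ∏ _v ∈ S \ M, B := by rw [prod_const]
          _ ≤ ∏ v ∈ S \ M, (Nv v) ^ η :=
              prod_le_prod (fun _ _ => hB0.le) fun v hv => hM v (mem_sdiff.1 hv).2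
          _ = (nn (S \ M)) ^ η := by
              unfold nn
              rw [Real.finsetProd_rpow _ _ (fun v _ => (Nv_pos v).le)]
          _ ≤ (nn S) ^ η :=
              Real.rpow_le_rpow (nn_pos _).le (nn_mono Finset.sdiff_subset) hη.le

theorem off_mult (hq : 3 ≤ q) (A : Fin q → Projectivization K (Fin 2 → K))
    (hA : Function.Injective A) (η : ℝ) (hη : 0 < η) :
    ∃ C : ℝ, 0 < C ∧ ∀ (S : Finset (Pr K)) (F : Finset (Off A)), (∀ P ∈ F, spA A P ⊆ S) →
      (F.card : ℝ) ≤ C * (nn S) ^ η := by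
  classical
  have ha : ∀ i j, i ≠ j → form (A i).rep (A j).rep ≠ 0 := fun i j hij =>
    form_rep_ne fun h => hij (hA h)
  obtain ⟨T, hT⟩ := bad_finite hq (∅ : Set (Pr K)) Set.finite_empty (a := fun l => (A l).rep) ha
  obtain ⟨B, hB, hlight⟩ := Pool.Agent.TH876.Loc.light_count (Module.finrank ℚ K) 0 (by norm_num)
  obtain ⟨C, hC, hpow⟩ := pow_card_le K B hB η hη
  refine ⟨B ^ (T.card + 1) * C, by positivity, fun S F hF => ?_⟩
  obtain ⟨s⟩ : Nonempty (Fin q) := ⟨⟨0, by omega⟩⟩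
  obtain ⟨a, haeq⟩ : ∃ a : Fin 3 → Fin 2 → K, a = tri (fun l => (A l).rep) s := ⟨_, rfl⟩
  have ha3 : ∀ i j, i ≠ j → form (a i) (a j) ≠ 0 := by
    rw [haeq]
    exact tri_ne hq ha s
  have hform : ∀ P : Off A, ∀ i, form (a i) P.1.rep ≠ 0 := by
    intro P i
    rw [haeq]
    exact form_rep_ne (P.2 _).symm
  have hinj : Function.Injective fun P : Off A => tt a P.1.rep := by
    intro P Q hPQ
    obtain ⟨c, hc⟩ := tt_inj ha3 (hform P) (hform Q) hPQ
    apply Subtype.ext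
    rw [← P.1.mk_rep, ← Q.1.mk_rep, Projectivization.mk_eq_mk_iff']
    exact ⟨c, hc⟩
  have hsub : ∀ P ∈ F, sp (tt a P.1.rep) ⊆ T ∪ S := by
    intro P hP v hv
    by_contra hcon
    rw [mem_union, not_or] at hcon
    have hg : GoodPr a v := by
      rw [haeq]
      exact tri_good hq (hT v hcon.1).2 s
    refine sp_tt ha3 (hform P) hg (fun i hi => hcon.2 (hF P hP ?_)) hv
    rw [mem_spA]
    have h1 := (localHeight_pos_iff v (hform P i)).1 hi
    rw [haeq] at h1
    refine ⟨finRotate q ^ (i : ℕ) • s, ?_⟩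
    rw [meet_comm]
    exact h1
  have h1 := hlight K rfl (T ∪ S) (F.image fun P => tt a P.1.rep) (by
    intro x hx
    obtain ⟨P, hP, rfl⟩ := mem_image.1 hx
    refine ⟨Pt_tt ha3 (hform P), ?_⟩
    unfold out
    rw [Finset.sdiff_eq_empty_iff_subset.2 (hsub P hP), sum_empty, zero_mul])
  rw [card_image_of_injective F hinj] at h1
  refine h1.trans ?_
  have h2 : (T ∪ S).card + 1 ≤ (T.card + 1) + S.card := by
    have := Finset.card_union_le T S
    omega
  calc B ^ ((T ∪ S).card + 1) ≤ B ^ ((T.card + 1) + S.card) := pow_le_pow_right₀ hB h2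
    _ = B ^ (T.card + 1) * B ^ S.card := pow_add _ _ _
    _ ≤ B ^ (T.card + 1) * (C * (nn S) ^ η) :=
        mul_le_mul_of_nonneg_left (hpow S) (by positivity)
    _ = _ := by ring

theorem off_hyp (hq : 3 ≤ q) (A : Fin q → Projectivization K (Fin 2 → K))
    (hA : Function.Injective A) : Hyp (spA A) where
  mult η hη := off_mult hq A hA η hη
  dec := by
    have hq0 : (0 : ℝ) < q := by exact_mod_cast (by omega : 0 < q)
    have hq3 : (3 : ℝ) ≤ q := by exact_mod_cast hq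
    have h1 : 2 / (q : ℝ) < 1 := by
      rw [div_lt_one hq0]
      linarith
    obtain ⟨D, hD, hb⟩ := off_dec hq A hA ((2 / q + 1) / 2) (by linarith)
    exact ⟨(2 / q + 1) / 2, D, by positivity, by linarith, hD, hb⟩

end Pool.Agent.Y911.RR
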