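import Mathlib
import Pool.Agent.Y911.RR.Pts

/-!
Integral points, over random rings of `S`-integers, of varieties which are quasi-finite over a
power of the line without `q` points.
-/

set_option autoImplicit false

namespace Pool.Agent.Y911.RR

open NumberField IsDedekindDomain Finset Pool.Agent.H691R3 Pool.Agent.TH876.Loc Filter Topology
open Pool.Agent.TH876.KR (form m2)

section Defs

variable {K : Type} [Field K] [NumberField K] {N : ℕ}

/-- the points of `U` whose coordinates are `T`-integers -/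
def Points (U : Set (Fin N → K)) (T : Set (HeightOneSpectrum (𝓞 K))) : Set U :=
  {x | ∀ j, x.1 j ∈ T.integer K}

/-- the primes of `S` and those dividing `n` -/
def adj (S : Set (HeightOneSpectrum (𝓞 K))) (n : Ideal (𝓞 K)) : Set (HeightOneSpectrum (𝓞 K)) :=
  S ∪ {v | n ≤ v.asIdeal}

/-- the product of the norms of the primes outside `S` in the denominators of some points -/
noncomputable def nrm (S : Set (HeightOneSpectrum (𝓞 K))) {U : Set (Fin N → K)} {k : ℕ}
    (τ : Fin k → U) : ℝ :=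
  ∏ᶠ v ∈ {v : HeightOneSpectrum (𝓞 K) | v ∉ S ∧ ∃ i j, 1 < v.valuation K ((τ i).1 j)},
    (Ideal.absNorm v.asIdeal : ℝ)

/-- the product of the norms of the primes where `z` meets `∞` or the `α l` -/
noncomputable def rad {r : ℕ} (α : Fin r → K) (z : K) : ℝ :=
  ∏ᶠ v ∈ {v : HeightOneSpectrum (𝓞 K) | ∃ l, v.valuation K (z - α l) ≠ 1},
    (Ideal.absNorm v.asIdeal : ℝ)

end Defs

section Av

variable (K : Type) [Field K] [NumberField K]

/-- the average over the nonzero ideals of norm at most `X` -/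
noncomputable def mean (X : ℕ) (f : Ideal (𝓞 K) → ℝ) : ℝ :=
  (∑ n ∈ ids K X, f n) / (ids K X).card

/-- the proportion of the nonzero ideals of norm at most `X` with a property -/
noncomputable def prop (X : ℕ) (Q : Set (Ideal (𝓞 K))) : ℝ :=
  ({n | n ∈ ids K X ∧ n ∈ Q}.ncard : ℝ) / (ids K X).card

end Av

variable {K : Type} [Field K] [NumberField K]

theorem prop_eq [DecidableEq (Pr K)] {T : Type} (sp : T → Finset (Pr K)) (X : ℕ)
    (Q : Ideal (𝓞 K) → Prop) : prop K X {n | Q n} = (sys sp).pr X Q := by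
  classical
  unfold prop Sys.pr
  show _ = (∑ n ∈ ids K X, ind (Q n)) / ((ids K X).card : ℝ)
  rw [sum_ind]
  congr 2
  rw [← Set.ncard_coe_finset]
  congr 1
  ext n
  simp

theorem val_eq (v : Pr K) (x : K) :
    fv v x = ((WithZeroMulInt.toNNReal (NumberField.HeightOneSpectrum.absNorm_ne_zero v)
      (v.valuation K x) : NNReal) : ℝ) :=
  NumberField.FinitePlace.norm_embedding' (v := v) (x := x)

theorem val_lt_one (v : Pr K) (x : K) : v.valuation K x < 1 ↔ fv v x < 1 := by
  rw [val_eq, NNReal.coe_lt_one]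
  exact (WithZeroMulInt.toNNReal_lt_one_iff
    (NumberField.HeightOneSpectrum.one_lt_absNorm_nnreal v)).symm

theorem val_le_one (v : Pr K) (x : K) : v.valuation K x ≤ 1 ↔ fv v x ≤ 1 := by
  rw [val_eq, NNReal.coe_le_one]
  exact (WithZeroMulInt.toNNReal_le_one_iff
    (NumberField.HeightOneSpectrum.one_lt_absNorm_nnreal v)).symm

theorem val_eq_one (v : Pr K) (x : K) : v.valuation K x = 1 ↔ fv v x = 1 := by
  constructor
  · intro h
    refine le_antisymm ((val_le_one v x).1 h.le) (not_lt.1 fun h' => ?_)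
    exact absurd ((val_lt_one v x).2 h') (by rw [h]; exact lt_irrefl _)
  · intro h
    refine le_antisymm ((val_le_one v x).2 h.le) (not_lt.1 fun h' => ?_)
    exact absurd ((val_lt_one v x).1 h') (by rw [h]; exact lt_irrefl _)

/-! ### the support of a point of the affine space -/

theorem den_finite {N : ℕ} (S : Set (Pr K)) (x : Fin N → K) :
    {v : Pr K | v ∉ S ∧ ∃ j, 1 < v.valuation K (x j)}.Finite := by
  have h1 : (⋃ j, {v : Pr K | 1 < fv v (x j)}).Finite := by
    refine Set.finite_iUnion fun j => ?_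
    by_cases hj : x j = 0
    · refine Set.finite_empty.subset fun v hv => ?_
      have hv' : 1 < fv v (x j) := hv
      rw [hj, map_zero] at hv'
      exact absurd hv' (by norm_num)
    · exact (fv_support_finite hj).subset fun v hv => (show 1 < fv v (x j) from hv).ne'
  refine h1.subset ?_
  rintro v ⟨_, j, hj⟩
  refine Set.mem_iUnion.2 ⟨j, ?_⟩
  show 1 < fv v (x j)
  by_contra h
  exact absurd hj (not_lt.2 ((val_le_one v _).2 (not_lt.1 h)))

variable {N : ℕ}

/-- the primes outside `S` in the denominators -/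
noncomputable def den (S : Set (Pr K)) (U : Set (Fin N → K)) (x : U) : Finset (Pr K) :=
  (den_finite S x.1).toFinset

theorem mem_den {S : Set (Pr K)} {U : Set (Fin N → K)} {x : U} {v : Pr K} :
    v ∈ den S U x ↔ v ∉ S ∧ ∃ j, 1 < v.valuation K (x.1 j) := by
  unfold den
  rw [Set.Finite.mem_toFinset]
  rfl

theorem nrm_eq [DecidableEq (Pr K)] (S : Set (Pr K)) {U : Set (Fin N → K)} {k : ℕ}
    (τ : Fin k → U) : nrm S τ = nn (un (den S U) τ) := by
  unfold nrm nn
  rw [← finprod_mem_coe_finset]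
  refine finprod_mem_congr ?_ fun v _ => rfl
  ext v
  unfold un
  rw [mem_coe, mem_biUnion]
  simp only [mem_univ, true_and, mem_den]
  constructor
  · rintro ⟨h, i, j, hj⟩
    exact ⟨i, h, j, hj⟩
  · rintro ⟨i, h, j, hj⟩
    exact ⟨h, i, j, hj⟩

theorem points_iff (S : Set (Pr K)) {U : Set (Fin N → K)} (n : Ideal (𝓞 K)) (x : U) :
    x ∈ Points U (adj S n) ↔ ∀ v ∈ den S U x, n ≤ v.asIdeal := by
  constructor
  · intro h v hv
    rw [mem_den] at hv
    obtain ⟨hS, j, hj⟩ := hv
    by_contra hn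
    have h1 : v ∉ adj S n := by
      rintro (h | h)
      · exact hS h
      · exact hn h
    exact absurd hj (not_lt.2 (h j v h1))
  · intro h j v hv
    by_contra hcon
    have h1 : v ∈ den S U x := mem_den.2 ⟨fun h' => hv (Or.inl h'), j, not_le.1 hcon⟩
    exact hv (Or.inr (h v h1))

theorem points_eq [DecidableEq (Pr K)] (S : Set (Pr K)) (U : Set (Fin N → K)) (n : Ideal (𝓞 K)) :
    Points U (adj S n) = (sys (den S U)).U n := by
  ext x
  exact points_iff S n x

/-! ### points of the projective line -/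

omit [NumberField K] in
theorem form_smul (a b : K) (x y : Fin 2 → K) : form (a • x) (b • y) = a * b * form x y := by
  unfold form
  simp only [Pi.smul_apply, smul_eq_mul]
  ring

theorem m2_smul (v : Pr K) (a : K) (x : Fin 2 → K) : m2 v (a • x) = fv v a * m2 v x := by
  unfold m2
  simp only [Pi.smul_apply, smul_eq_mul, map_mul]
  exact (mul_max_of_nonneg _ _ ((fv v).nonneg a)).symm

theorem meet_mk (v : Pr K) {x y : Fin 2 → K} (hx : x ≠ 0) (hy : y ≠ 0) :
    Meet v (Projectivization.mk K x hx) (Projectivization.mk K y hy) ↔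
      fv v (form x y) < m2 v x * m2 v y := by
  obtain ⟨a, ha⟩ := Projectivization.exists_smul_eq_mk_rep K x hx
  obtain ⟨b, hb⟩ := Projectivization.exists_smul_eq_mk_rep K y hy
  rw [meet_iff, ← ha, ← hb]
  have e1 : (a • x : Fin 2 → K) = (a : K) • x := rfl
  have e2 : (b • y : Fin 2 → K) = (b : K) • y := rfl
  rw [e1, e2, form_smul, m2_smul, m2_smul, map_mul, map_mul]
  have ha0 : 0 < fv v (a : K) := (fv v).pos a.ne_zero
  have hb0 : 0 < fv v (b : K) := (fv v).pos b.ne_zero
  have e3 : fv v (a : K) * m2 v x * (fv v (b : K) * m2 v y) =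
      fv v (a : K) * fv v (b : K) * (m2 v x * m2 v y) := by ring
  rw [e3]
  exact mul_lt_mul_iff_right₀ (mul_pos ha0 hb0)

/-- the point `z` of the affine line -/
def pt (z : K) : Projectivization K (Fin 2 → K) :=
  Projectivization.mk K ![z, 1] (fun h => one_ne_zero (congrFun h 1))

/-- the point at infinity -/
def infty (K : Type) [Field K] : Projectivization K (Fin 2 → K) :=
  Projectivization.mk K ![1, 0] (fun h => one_ne_zero (congrFun h 0))

theorem pt_inj {z w : K} (h : pt z = pt w) : z = w := by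
  unfold pt at h
  rw [Projectivization.mk_eq_mk_iff'] at h
  obtain ⟨a, ha⟩ := h
  have h0 := congrFun ha 0
  have h1 := congrFun ha 1
  simp at h0 h1
  rw [← h0, h1, one_mul]

theorem pt_ne_infty (z : K) : pt z ≠ infty K := by
  intro h
  unfold pt infty at h
  rw [Projectivization.mk_eq_mk_iff'] at h
  obtain ⟨a, ha⟩ := h
  have h1 := congrFun ha 1
  simp at h1

variable {r : ℕ}

/-- `∞` and the `α l` -/
def dv (α : Fin r → K) : Fin (r + 1) → Projectivization K (Fin 2 → K) :=
  Fin.cons (infty K) fun l => pt (α l)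

theorem dv_inj {α : Fin r → K} (hα : Function.Injective α) : Function.Injective (dv α) := by
  unfold dv
  rw [Fin.cons_injective_iff]
  refine ⟨?_, fun a b h => hα (pt_inj h)⟩
  rintro ⟨l, hl⟩
  exact pt_ne_infty _ hl

theorem pt_off {α : Fin r → K} {z : K} (hz : ∀ l, z ≠ α l) (l : Fin (r + 1)) :
    pt z ≠ dv α l := by
  unfold dv
  refine Fin.cases ?_ (fun l => ?_) l
  · rw [Fin.cons_zero]
    exact pt_ne_infty z
  · rw [Fin.cons_succ]
    exact fun h => hz l (pt_inj h)

/-- a prime where the `α l` are integral -/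
def Int1 (α : Fin r → K) (v : Pr K) : Prop := ∀ l, fv v (α l) ≤ 1

theorem m2_pt (v : Pr K) (z : K) : m2 v ![z, 1] = max (fv v z) 1 := by
  unfold m2
  simp

theorem m2_infty (v : Pr K) : m2 v (![1, 0] : Fin 2 → K) = 1 := by
  unfold m2
  simp

theorem meet_pt_infty (v : Pr K) (z : K) : Meet v (pt z) (infty K) ↔ 1 < fv v z := by
  unfold pt infty
  rw [meet_mk, m2_pt, m2_infty, mul_one]
  have : form (![z, 1] : Fin 2 → K) ![1, 0] = -1 := by
    unfold form
    simp
  rw [this, (fv v).map_neg, map_one, lt_max_iff]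
  simp

theorem meet_pt_pt (v : Pr K) (z w : K) (hw : fv v w ≤ 1) :
    Meet v (pt z) (pt w) ↔ fv v (z - w) < max (fv v z) 1 := by
  unfold pt
  rw [meet_mk, m2_pt, m2_pt, max_eq_right hw, mul_one]
  have : form (![z, 1] : Fin 2 → K) ![w, 1] = z - w := by
    unfold form
    simp
  rw [this]

/-- at a good prime the point `z` meets `∞` or an `α l` exactly if some `z - α l` is not a unit -/
theorem meet_iff_val {α : Fin r → K} (hr : 0 < r) {v : Pr K} (hv : Int1 α v) (z : K) :
    (∃ l, Meet v (pt z) (dv α l)) ↔ ∃ l, v.valuation K (z - α l) ≠ 1 := by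
  have key : ∀ l, fv v z ≤ 1 → fv v (z - α l) ≤ 1 := fun l hz => by
    refine (Pool.Agent.TH876.KR.fv_sub_le v _ _).trans (max_le hz (hv l))
  constructor
  · rintro ⟨l, hl⟩
    revert hl
    unfold dv
    refine Fin.cases ?_ (fun l => ?_) l
    · rw [Fin.cons_zero, meet_pt_infty]
      intro hz
      refine ⟨⟨0, hr⟩, fun h => ?_⟩
      rw [val_eq_one] at h
      have h1 : fv v z ≤ 1 := by
        have h2 : z = (z - α ⟨0, hr⟩) + α ⟨0, hr⟩ := by ring
        rw [h2]
        exact (fv_na v _ _).trans (max_le h.le (hv _))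
      exact absurd hz (not_lt.2 h1)
    · rw [Fin.cons_succ, meet_pt_pt v z _ (hv l)]
      intro hz
      refine ⟨l, fun h => ?_⟩
      rw [val_eq_one] at h
      rw [h, lt_max_iff] at hz
      rcases hz with h1 | h1
      · have h3 : fv v z ≤ 1 := by
          have h2 : z = (z - α l) + α l := by ring
          rw [h2]
          exact (fv_na v _ _).trans (max_le h.le (hv _))
        exact absurd h1 (not_lt.2 h3)
      · exact lt_irrefl _ h1
  · rintro ⟨l, hl⟩
    by_cases hz : 1 < fv v z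
    · refine ⟨0, ?_⟩
      unfold dv
      rw [Fin.cons_zero, meet_pt_infty]
      exact hz
    · refine ⟨l.succ, ?_⟩
      unfold dv
      rw [Fin.cons_succ, meet_pt_pt v z _ (hv l), max_eq_right (not_lt.1 hz)]
      refine lt_of_le_of_ne (key l (not_lt.1 hz)) fun h => hl ?_
      rw [val_eq_one]
      exact h

theorem int1_finite (α : Fin r → K) : {v : Pr K | ¬ Int1 α v}.Finite := by
  have h1 := den_finite (∅ : Set (Pr K)) α
  refine h1.subset fun v hv => ⟨Set.notMem_empty v, ?_⟩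
  have hv' : ¬ ∀ l, fv v (α l) ≤ 1 := hv
  push Not at hv'
  obtain ⟨l, hl⟩ := hv'
  refine ⟨l, ?_⟩
  by_contra h
  exact absurd hl (not_lt.2 ((val_le_one v _).1 (not_lt.1 h)))

/-! ### polynomials -/

theorem fv_eval_le (v : Pr K) (p : MvPolynomial (Fin N) K) (hp : ∀ s, fv v (p.coeff s) ≤ 1)
    (x : Fin N → K) (hx : ∀ j, fv v (x j) ≤ 1) : fv v (MvPolynomial.eval x p) ≤ 1 := by
  rw [MvPolynomial.eval_eq]
  refine Finset.sum_induction _ (fun z => fv v z ≤ 1) (fun a b ha hb => ?_) ?_ fun s _ => ?_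
  · exact (fv_na v a b).trans (max_le ha hb)
  · rw [map_zero]
    exact zero_le_one
  · rw [map_mul, map_prod]
    have h1 : ∏ i ∈ s.support, fv v (x i ^ s i) ≤ 1 := by
      refine prod_le_one (fun i _ => (fv v).nonneg _) fun i _ => ?_
      rw [map_pow]
      exact pow_le_one₀ ((fv v).nonneg _) (hx i)
    have h2 : 0 ≤ ∏ i ∈ s.support, fv v (x i ^ s i) := prod_nonneg fun i _ => (fv v).nonneg _
    calc fv v (p.coeff s) * ∏ i ∈ s.support, fv v (x i ^ s i) ≤ 1 * 1 :=
          mul_le_mul (hp s) h1 h2 zero_le_one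
      _ = 1 := one_mul 1

theorem poly_finite (p : MvPolynomial (Fin N) K) :
    {v : Pr K | ¬ ∀ s, fv v (p.coeff s) ≤ 1}.Finite := by
  have h1 : (⋃ s ∈ p.support, {v : Pr K | fv v (p.coeff s) ≠ 1}).Finite :=
    p.support.finite_toSet.biUnion fun s hs =>
      fv_support_finite (MvPolynomial.mem_support_iff.1 (by simpa using hs))
  refine h1.subset fun v hv => ?_
  have hv' : ¬ ∀ s, fv v (p.coeff s) ≤ 1 := hv
  push Not at hv'
  obtain ⟨s, hs⟩ := hv'
  refine Set.mem_biUnion (x := s) ?_ hs.ne'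
  rw [mem_coe, MvPolynomial.mem_support_iff]
  intro h0
  rw [h0, map_zero] at hs
  exact absurd hs (by norm_num)

/-! ### families -/

variable {m : ℕ}

/-- the functions `f i - α l` are invertible on `U`, and the `f i` together are at most
`B`-to-one -/
structure QF (U : Set (Fin N → K)) (α : Fin r → K) (f : Fin m → MvPolynomial (Fin N) K)
    (g : Fin m → Fin r → MvPolynomial (Fin N) K) (B : ℕ) : Prop where
  unit : ∀ x ∈ U, ∀ i l, (MvPolynomial.eval x (f i) - α l) * MvPolynomial.eval x (g i l) = 1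
  few : ∀ y : Fin m → K, ∃ G : Finset (Fin N → K), G.card ≤ B ∧
    ∀ x ∈ U, (∀ i, MvPolynomial.eval x (f i) = y i) → x ∈ G

theorem exists_bad (α : Fin r → K) (f : Fin m → MvPolynomial (Fin N) K)
    (g : Fin m → Fin r → MvPolynomial (Fin N) K) : ∃ Bd : Finset (Pr K), ∀ v, v ∉ Bd →
      Int1 α v ∧ (∀ i s, fv v ((f i).coeff s) ≤ 1) ∧ ∀ i l s, fv v ((g i l).coeff s) ≤ 1 := by
  have h1 := int1_finite α
  have h2 : (⋃ i, {v : Pr K | ¬ ∀ s, fv v ((f i).coeff s) ≤ 1}).Finite :=
    Set.finite_iUnion fun i => poly_finite (f i)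
  have h3 : (⋃ p : Fin m × Fin r, {v : Pr K | ¬ ∀ s, fv v ((g p.1 p.2).coeff s) ≤ 1}).Finite :=
    Set.finite_iUnion fun p => poly_finite (g p.1 p.2)
  refine ⟨(h1.union (h2.union h3)).toFinset, fun v hv => ?_⟩
  rw [Set.Finite.mem_toFinset] at hv
  refine ⟨?_, ?_, ?_⟩
  · by_contra h
    exact hv (Or.inl h)
  · intro i
    by_contra h
    exact hv (Or.inr (Or.inl (Set.mem_iUnion.2 ⟨i, h⟩)))
  · intro i l
    by_contra h
    exact hv (Or.inr (Or.inr (Set.mem_iUnion.2 ⟨(i, l), h⟩)))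

theorem QF.ne {U : Set (Fin N → K)} {α : Fin r → K} {f : Fin m → MvPolynomial (Fin N) K}
    {g : Fin m → Fin r → MvPolynomial (Fin N) K} {B : ℕ} (h : QF U α f g B) (x : U) (i : Fin m)
    (l : Fin r) : MvPolynomial.eval x.1 (f i) ≠ α l := by
  intro h0
  have := h.unit x.1 x.2 i l
  rw [h0, sub_self, zero_mul] at this
  exact zero_ne_one this

/-- the points on the line -/
noncomputable def QF.c {U : Set (Fin N → K)} {α : Fin r → K} {f : Fin m → MvPolynomial (Fin N) K}
    {g : Fin m → Fin r → MvPolynomial (Fin N) K} {B : ℕ} (h : QF U α f g B) (x : U) (i : Fin m) :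
    Off (dv α) := ⟨pt (MvPolynomial.eval x.1 (f i)), pt_off (h.ne x i)⟩

theorem QF.over [DecidableEq (Pr K)] {U : Set (Fin N → K)} {α : Fin r → K}
    {f : Fin m → MvPolynomial (Fin N) K}
    {g : Fin m → Fin r → MvPolynomial (Fin N) K} {B : ℕ} (h : QF U α f g B) (hr : 0 < r)
    {Bd : Finset (Pr K)} (hBd : ∀ v, v ∉ Bd →
      Int1 α v ∧ (∀ i s, fv v ((f i).coeff s) ≤ 1) ∧ ∀ i l s, fv v ((g i l).coeff s) ≤ 1)
    (S : Finset (Pr K)) : Over (spA (dv α)) m B (Bd ∪ S) h.c (den (S : Set (Pr K)) U) where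
  few y := by
    classical
    by_cases hy : ∃ x₀, h.c x₀ = y
    · obtain ⟨x₀, hx₀⟩ := hy
      obtain ⟨G, hG1, hG2⟩ := h.few fun i => MvPolynomial.eval x₀.1 (f i)
      refine ⟨G.subtype (· ∈ U), ?_, fun x hx => ?_⟩
      · refine le_trans ?_ hG1
        rw [Finset.card_subtype]
        exact card_filter_le _ _
      · rw [Finset.mem_subtype]
        refine hG2 x.1 x.2 fun i => ?_
        rw [← hx₀] at hx
        exact pt_inj (congrArg Subtype.val (congrFun hx i))
    · exact ⟨∅, by simp, fun x hx => absurd ⟨x, hx⟩ hy⟩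
  sub x := by
    intro v hv
    unfold un at hv
    rw [mem_biUnion] at hv
    obtain ⟨i, _, hi⟩ := hv
    rw [mem_spA] at hi
    by_contra hcon
    rw [mem_union, mem_union, not_or, not_or] at hcon
    obtain ⟨k1, k2, k3⟩ := hcon
    obtain ⟨b1, b2, b3⟩ := hBd v k2
    have hx : ∀ j, fv v (x.1 j) ≤ 1 := by
      intro j
      by_contra hj
      apply k1
      rw [mem_den]
      refine ⟨fun hS => k3 hS, j, ?_⟩
      by_contra h'
      exact hj ((val_le_one v _).1 (not_lt.1 h'))
    obtain ⟨l, hl⟩ := (meet_iff_val hr b1 _).1 hi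
    apply hl
    rw [val_eq_one]
    have e1 : fv v (MvPolynomial.eval x.1 (f i) - α l) ≤ 1 :=
      (Pool.Agent.TH876.KR.fv_sub_le v _ _).trans (max_le (fv_eval_le v _ (b2 i) _ hx) (b1 l))
    have e2 : fv v (MvPolynomial.eval x.1 (g i l)) ≤ 1 := fv_eval_le v _ (b3 i l) _ hx
    have e3 : fv v (MvPolynomial.eval x.1 (f i) - α l) * fv v (MvPolynomial.eval x.1 (g i l)) = 1 := by
      rw [← map_mul, h.unit x.1 x.2 i l, map_one]
    refine le_antisymm e1 ?_
    by_contra h'
    rw [not_le] at h'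
    have e4 : 0 ≤ fv v (MvPolynomial.eval x.1 (g i l)) := (fv v).nonneg _
    have e5 : 0 ≤ fv v (MvPolynomial.eval x.1 (f i) - α l) := (fv v).nonneg _
    nlinarith

theorem rad_finite {α : Fin r → K} {z : K} (hz : ∀ l, z ≠ α l) :
    {v : Pr K | ∃ l, v.valuation K (z - α l) ≠ 1}.Finite := by
  have h1 : (⋃ l, {v : Pr K | fv v (z - α l) ≠ 1}).Finite :=
    Set.finite_iUnion fun l => fv_support_finite (sub_ne_zero.2 (hz l))
  refine h1.subset ?_
  rintro v ⟨l, hl⟩
  refine Set.mem_iUnion.2 ⟨l, fun h => hl ?_⟩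
  rw [val_eq_one]
  exact h

/-- **Main theorem.** -/
theorem main {B : ℕ} (hr : 2 ≤ r) (U : Set (Fin N → K)) (α : Fin r → K)
    (hα : Function.Injective α) (f : Fin m → MvPolynomial (Fin N) K)
    (g : Fin m → Fin r → MvPolynomial (Fin N) K) (hQ : QF U α f g B)
    (S : Set (HeightOneSpectrum (𝓞 K))) (hS : S.Finite) :
    (∀ n : Ideal (𝓞 K), n ≠ ⊥ → (Points U (adj S n)).Finite) ∧
    (∀ k : ℕ, Summable (fun τ : Fin k → U => 1 / nrm S τ) ∧
      Tendsto (fun X => mean K X fun n => ((Points U (adj S n)).ncard : ℝ) ^ k) atTop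
        (𝓝 (∑' τ : Fin k → U, 1 / nrm S τ))) ∧
    (∃ δ : Finset U → ℝ,
      (∀ F : Finset U,
        Tendsto (fun X => prop K X {n | Points U (adj S n) = F}) atTop (𝓝 (δ F))) ∧
      HasSum δ 1 ∧
      ∀ k : ℕ, HasSum (fun F => δ F * (F.card : ℝ) ^ k) (∑' τ : Fin k → U, 1 / nrm S τ)) ∧
    ((∀ Z : ℝ, {x : U | nrm S (fun _ : Fin 1 => x) ≤ Z}.Finite) ∧
      ∃ κ C : ℝ, 0 < κ ∧ ∀ X : ℕ, 1 ≤ X → ∀ Z : ℝ, 1 ≤ Z →
      prop K X {n | ∃ x ∈ Points U (adj S n), Z < nrm S (fun _ : Fin 1 => x)} ≤ C * Z ^ (-κ)) ∧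
    (∀ ε : ℝ, 0 < ε → ∃ C : ℝ, ∀ X : ℕ, 1 ≤ X → ∀ Z : ℝ, 1 ≤ Z →
      prop K X {n | ∃ x ∈ Points U (adj S n), ∃ i, Z < rad α (MvPolynomial.eval x.1 (f i))} ≤
        C * Z ^ (-((r : ℝ) - 1) / (r + 1) + ε)) := by
  classical
  obtain ⟨S, rfl⟩ : ∃ S' : Finset (Pr K), (S' : Set (Pr K)) = S := ⟨hS.toFinset, by simp⟩
  have hA := dv_inj hα
  have hq : 3 ≤ r + 1 := by omega
  have hH := off_hyp hq (dv α) hA
  have hPow0 : Pow (spA (dv α)) := fun k => tuples_sum hH k
  obtain ⟨Bd, hBd⟩ := exists_bad α f g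
  have hO := hQ.over (by omega) hBd S
  have hPow := hO.pow hPow0
  have hFin := hO.finSp hH.finSp
  have hG := sys_good hFin
  have hM := sys_mom hPow
  have hd : ∀ k : ℕ, ∀ τ : Fin k → U,
      (sys (den (S : Set (Pr K)) U)).d (univ.image τ) = 1 / nrm (S : Set (Pr K)) τ := by
    intro k τ
    rw [d_image, nrm_eq]
  obtain ⟨δ, hδ⟩ : ∃ δ : Finset U → ℝ, ∀ F : Finset U,
      Tendsto (fun X => (sys (den (S : Set (Pr K)) U)).pr X fun n =>
        (sys (den (S : Set (Pr K)) U)).U n = F) atTop (𝓝 (δ F)) := by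
    choose δ hδ using fun F => Sys.law hG hM F
    exact ⟨δ, hδ⟩
  have hlm := Sys.law_moments hG hM δ hδ
  have e1 : ∀ x : U, nrm (S : Set (Pr K)) (fun _ : Fin 1 => x) =
      nn (den (S : Set (Pr K)) U x) := by
    intro x
    rw [nrm_eq]
    congr 1
    unfold un
    ext v
    simp
  refine ⟨fun n hn => ?_, fun k => ⟨?_, ?_⟩, ⟨δ, fun F => ?_, ?_, fun k => ?_⟩,
    ⟨fun Z => ?_, ?_⟩, ?_⟩
  · rw [points_eq]
    exact sys_fin hFin hn
  · have := hM k
    simp only [hd] at this
    exact this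
  · have := Sys.moments hG hM k
    simp only [hd] at this
    refine this.congr fun X => ?_
    unfold mean Sys.av
    simp only [points_eq]
    rfl
  · refine (hδ F).congr fun X => ?_
    simp only [points_eq]
    exact (prop_eq (den (S : Set (Pr K)) U) X _).symm
  · have h0 := hlm 0
    simp only [pow_zero, mul_one] at h0
    have h1 : ∑' τ : Fin 0 → U, (sys (den (S : Set (Pr K)) U)).d (univ.image τ) = 1 := by
      rw [tsum_fintype]
      have e : ∀ τ : Fin 0 → U, (sys (den (S : Set (Pr K)) U)).d (univ.image τ) = 1 := by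
        intro τ
        rw [d_image]
        have : un (den (S : Set (Pr K)) U) τ = ∅ := by
          unfold un
          rw [univ_eq_empty, biUnion_empty]
        rw [this]
        unfold nn
        rw [prod_empty, div_one]
      rw [sum_congr rfl fun τ _ => e τ]
      simp
    rw [h1] at h0
    exact h0
  · have := hlm k
    simp only [hd] at this
    exact this
  · refine (hFin (Pool.Agent.TH876.KR.finite_primes K Z).toFinset).subset fun x hx v hv => ?_
    rw [Set.Finite.mem_toFinset]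
    have h2 : nrm (S : Set (Pr K)) (fun _ : Fin 1 => x) ≤ Z := hx
    rw [e1] at h2
    exact (Nv_le_nn hv).trans h2
  · obtain ⟨s, C, h0, h1, hC, hb⟩ := hPow 1
    refine ⟨1 - s, idC K * C, by linarith, fun X hX Z hZ => ?_⟩
    have hb1 : ∀ F : Finset U, ∑ t ∈ F, (nn (den (S : Set (Pr K)) U t)) ^ (-s) ≤ C := by
      intro F
      have h2 := hb (F.map (Equiv.funUnique (Fin 1) U).symm.toEmbedding)
      rw [sum_map] at h2
      refine le_trans (le_of_eq (sum_congr rfl fun t _ => ?_)) h2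
      congr 2
      unfold un
      ext v
      simp
    have h3 := sys_tail hFin hPow h1 hb1 X hX Z (by linarith)
    rw [show -(1 - s) = s - 1 by ring]
    refine le_trans (le_of_eq ?_) h3
    rw [← prop_eq]
    congr 1
    ext n
    show (∃ x ∈ Points U (adj (S : Set (Pr K)) n), Z < nrm (S : Set (Pr K)) (fun _ : Fin 1 => x)) ↔ _
    simp only [e1]
    constructor
    · rintro ⟨P, hP, hZP⟩
      exact ⟨P, (points_iff _ n P).1 hP, hZP⟩
    · rintro ⟨P, hP, hZP⟩
      exact ⟨P, (points_iff _ n P).2 hP, hZP⟩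
  · intro ε hε
    have hr0 : (2 : ℝ) ≤ r := by exact_mod_cast hr
    obtain ⟨θ₀, hθ₀⟩ : ∃ θ₀ : ℝ, θ₀ = 2 / ((r : ℝ) + 1) := ⟨_, rfl⟩
    have hq1 : θ₀ < 1 := by
      rw [hθ₀, div_lt_one (by linarith)]
      linarith
    have hexp : -((r : ℝ) - 1) / (r + 1) = θ₀ - 1 := by
      rw [hθ₀]
      field_simp
      ring
    have hθpos : 0 < θ₀ := by rw [hθ₀]; positivity
    obtain ⟨ε', hε'⟩ : ∃ ε' : ℝ, ε' = min ε ((1 - θ₀) / 2) := ⟨_, rfl⟩
    have g1 : ε' ≤ ε := by rw [hε']; exact min_le_left _ _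
    have g2 : ε' ≤ (1 - θ₀) / 2 := by rw [hε']; exact min_le_right _ _
    have g3 : 0 < ε' := by
      rw [hε']
      exact lt_min hε (by linarith)
    obtain ⟨D, hD, hb⟩ := off_dec hq (dv α) hA (θ₀ + ε') (by
      push_cast
      rw [← hθ₀]
      linarith)
    obtain ⟨B0, hB0⟩ : ∃ B0 : Finset (Pr K), B0 = Bd ∪ S := ⟨_, rfl⟩
    obtain ⟨sp', hsp'⟩ : ∃ sp' : Off (dv α) → Finset (Pr K), sp' = fun t => spA (dv α) t \ B0 :=
      ⟨_, rfl⟩
    have hms : ∀ t v, v ∈ sp' t ↔ v ∈ spA (dv α) t ∧ v ∉ B0 := by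
      intro t v
      rw [hsp']
      exact Finset.mem_sdiff
    have hch : ∀ t, spA (dv α) t ⊆ sp' t ∪ B0 := by
      intro t v hv
      rw [mem_union, hms]
      by_cases h : v ∈ B0
      · exact Or.inr h
      · exact Or.inl ⟨hv, h⟩
    have hH' : Hyp sp' := hH.change B0 hch
    have hP' : Pow sp' := fun k => tuples_sum hH' k
    have hb' := change_sum (by linarith) B0 hch hb
    have hn0 := nn_pos B0
    refine ⟨idC K * ((nn B0) ^ (θ₀ + ε') * D) * (nn B0) ^ (-(θ₀ + ε' - 1)),
      fun X hX Z hZ => ?_⟩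
    have hZ0 : 0 < Z := by linarith
    have h3 := sys_tail hH'.finSp hP' (by linarith) hb' X hX (Z / nn B0) (by positivity)
    have h4 : prop K X {n | ∃ x ∈ Points U (adj (S : Set (Pr K)) n), ∃ i,
          Z < rad α (MvPolynomial.eval x.1 (f i))} ≤
        (sys sp').pr X (fun n => ∃ t, (∀ v ∈ sp' t, n ≤ v.asIdeal) ∧ Z / nn B0 < nn (sp' t)) := by
      rw [prop_eq sp']
      refine Sys.pr_mono fun n _ => ?_
      rintro ⟨x, hx, i, hi⟩
      refine ⟨hQ.c x i, fun v hv => ?_, ?_⟩
      · rw [hms] at hv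
        have h5 : v ∈ un (spA (dv α)) (hQ.c x) := by
          unfold un
          rw [mem_biUnion]
          exact ⟨i, mem_univ i, hv.1⟩
        rcases mem_union.1 (hO.sub x h5) with h6 | h6
        · exact (points_iff _ n x).1 hx v h6
        · rw [← hB0] at h6
          exact absurd h6 hv.2
      · rw [div_lt_iff₀ hn0]
        refine lt_of_lt_of_le hi ?_
        have hz : ∀ l, MvPolynomial.eval x.1 (f i) ≠ α l := hQ.ne x i
        have e1 : rad α (MvPolynomial.eval x.1 (f i)) = nn (rad_finite hz).toFinset := by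
          unfold rad nn
          rw [← finprod_mem_coe_finset, Set.Finite.coe_toFinset]
          rfl
        rw [e1]
        have e2 : (rad_finite hz).toFinset ⊆ sp' (hQ.c x i) ∪ B0 := by
          intro v hv
          rw [Set.Finite.mem_toFinset] at hv
          by_cases h : v ∈ B0
          · exact mem_union_right _ h
          · refine mem_union_left _ ?_
            rw [hms, mem_spA]
            refine ⟨?_, h⟩
            have h7 : v ∉ Bd := fun h' => h (by rw [hB0]; exact mem_union_left _ h')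
            exact (meet_iff_val (by omega) (hBd v h7).1 _).2 hv
        refine (nn_mono e2).trans ?_
        rw [← Finset.union_sdiff_self_eq_union, nn_union Finset.disjoint_sdiff]
        exact mul_le_mul_of_nonneg_left (nn_mono Finset.sdiff_subset) (nn_pos _).le
    refine h4.trans (h3.trans ?_)
    rw [Real.div_rpow hZ0.le hn0.le, Real.rpow_neg hn0.le, hexp]
    have h8 : Z ^ (θ₀ + ε' - 1) ≤ Z ^ (θ₀ - 1 + ε) :=
      Real.rpow_le_rpow_of_exponent_le hZ (by linarith)
    have h9 : 0 ≤ idC K * ((nn B0) ^ (θ₀ + ε') * D) * ((nn B0) ^ (θ₀ + ε' - 1))⁻¹ := by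
      have := (idC_pos (K := K)).le
      positivity
    calc idC K * ((nn B0) ^ (θ₀ + ε') * D) * (Z ^ (θ₀ + ε' - 1) / (nn B0) ^ (θ₀ + ε' - 1)) =
        idC K * ((nn B0) ^ (θ₀ + ε') * D) * ((nn B0) ^ (θ₀ + ε' - 1))⁻¹ *
          Z ^ (θ₀ + ε' - 1) := by
          rw [div_eq_mul_inv]
          ring
      _ ≤ _ := mul_le_mul_of_nonneg_left h8 h9

end Pool.Agent.Y911.RR
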